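import Pool.Graph.R_seed8.W889.FO.Gen

set_option autoImplicit false

/-! Interpretations on quotients of definable sets of tuples by definable equivalence relations. -/

namespace Pool.Agent.H2.OC

open FirstOrder FirstOrder.Language
open Pool.Agent.W889.FO
open Pool.Agent.W889.VC (BP cont_of_meas)
open Pool.Agent.W889.SD (Nth nth_equiv bp_nth)

/-- an enumeration of the tuples -/
noncomputable def dec (K : ℕ) : ℕ → (Fin K → ℕ) := (exists_surjective_nat (Fin K → ℕ)).choose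

theorem dec_surj (K : ℕ) (t : Fin K → ℕ) : ∃ u, dec K u = t :=
  (exists_surjective_nat (Fin K → ℕ)).choose_spec t

/-- Interpretations of `L`-structures in a class of `L'`-structures, on quotients of definable
sets of tuples by definable equivalence relations. -/
structure Itk (K : ℕ) (L L' : FirstOrder.Language.{0, 0}) where
  /-- the class -/
  W : L'.Structure ℕ → Prop
  axW : Ax W
  /-- the domain -/
  dom : L'.Structure ℕ → (Fin K → ℕ) → Prop
  /-- the equivalence relation -/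
  eqv : L'.Structure ℕ → (Fin K → ℕ) → (Fin K → ℕ) → Prop
  /-- the relations -/
  rel : ∀ {n : ℕ}, L.Relations n → L'.Structure ℕ → (Fin n → Fin K → ℕ) → Prop
  fdom : FD W (fun S (v : Fin K → ℕ) => dom S v)
  feqv : FD W (fun S (v : Fin 2 × Fin K → ℕ) => eqv S (fun j => v (0, j)) (fun j => v (1, j)))
  frel : ∀ {n : ℕ} (R : L.Relations n), FD W (fun S (v : Fin n × Fin K → ℕ) =>
    rel R S (fun i j => v (i, j)))
  refl : ∀ S, W S → ∀ u, dom S u → eqv S u u
  symm : ∀ S, W S → ∀ u v, dom S u → dom S v → eqv S u v → eqv S v u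
  trans : ∀ S, W S → ∀ u v w, dom S u → dom S v → dom S w → eqv S u v → eqv S v w → eqv S u w
  cong : ∀ S, W S → ∀ {n : ℕ} (R : L.Relations n) (u v : Fin n → Fin K → ℕ), (∀ i, dom S (u i)) →
    (∀ i, dom S (v i)) → (∀ i, eqv S (u i) (v i)) → rel R S u → rel R S v
  inf : ∀ S, W S → ∀ N : ℕ, ∃ X : Fin N → Fin K → ℕ, (∀ i, dom S (X i)) ∧
    ∀ i j, i ≠ j → ¬ eqv S (X i) (X j)

namespace Itk

variable {K : ℕ} {L L' : FirstOrder.Language.{0, 0}} (I : Itk K L L')

/-- the least element of its class -/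
def rp (S : L'.Structure ℕ) (u : ℕ) : Prop :=
  I.dom S (dec K u) ∧ ∀ u', u' < u → I.dom S (dec K u') → ¬ I.eqv S (dec K u') (dec K u)

/-- the class of `t` is the class number `n` -/
def lab (S : L'.Structure ℕ) (n : ℕ) (t : Fin K → ℕ) : Prop :=
  I.dom S t ∧ ∃ r, Nth (I.rp S) n r ∧ I.eqv S (dec K r) t

/-- the interpreted structure -/
@[reducible] def D [L.IsRelational] (S : L'.Structure ℕ) : L.Structure ℕ where
  funMap := fun {_} f => isEmptyElim f
  RelMap := fun {n} R v => ∃ u : Fin n → ℕ, (∀ i, Nth (I.rp S) (v i) (u i)) ∧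
    I.rel R S (fun i => dec K (u i))

variable {I} {S S' : L'.Structure ℕ}

theorem ex_rep (h : I.W S) {t : Fin K → ℕ} (hu : I.dom S t) :
    ∃ r, I.rp S r ∧ I.eqv S (dec K r) t := by
  classical
  obtain ⟨u, rfl⟩ := dec_surj K t
  have hex : ∃ r, I.dom S (dec K r) ∧ I.eqv S (dec K r) (dec K u) := ⟨u, hu, I.refl S h _ hu⟩
  refine ⟨Nat.find hex, ⟨(Nat.find_spec hex).1, fun u' h1 h2 h3 => ?_⟩, (Nat.find_spec hex).2⟩
  exact Nat.find_min hex h1 ⟨h2, I.trans S h _ _ _ h2 (Nat.find_spec hex).1 hu h3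
    (Nat.find_spec hex).2⟩

theorem rep_eq (h : I.W S) {r r' : ℕ} (hr : I.rp S r) (hr' : I.rp S r')
    (he : I.eqv S (dec K r) (dec K r')) : r = r' := by
  rcases lt_trichotomy r r' with h1 | h1 | h1
  · exact absurd he (hr'.2 r h1 hr.1)
  · exact h1
  · exact absurd (I.symm S h _ _ hr.1 hr'.1 he) (hr.2 r' h1 hr'.1)

theorem inf' (h : I.W S) (N : ℕ) : ∃ u, N ≤ u ∧ I.rp S u := by
  classical
  by_contra hcon
  push Not at hcon
  obtain ⟨X, hX1, hX2⟩ := I.inf S h (N + 1)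
  choose r hr1 hr2 using fun i => ex_rep h (hX1 i)
  have hlt : ∀ i, r i < N := fun i => by
    by_contra h1
    exact hcon _ (not_lt.1 h1) (hr1 i)
  let q : Fin (N + 1) → Fin N := fun i => ⟨r i, hlt i⟩
  obtain ⟨i, j, hij, hq⟩ := Fintype.exists_ne_map_eq_of_card_lt q (by simp)
  have e : r i = r j := congrArg Fin.val hq
  refine hX2 i j hij ?_
  have h1 := hr2 i
  rw [e] at h1
  exact I.trans S h _ _ _ (hX1 i) (hr1 j).1 (hX1 j) (I.symm S h _ _ (hr1 j).1 (hX1 i) h1) (hr2 j)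

theorem nth (h : I.W S) : ∃ e : ℕ ≃ {u // I.rp S u},
    ∀ n u, Nth (I.rp S) n u ↔ (e n : ℕ) = u := nth_equiv (inf' h)

theorem ex_lab (h : I.W S) {t : Fin K → ℕ} (hu : I.dom S t) : ∃ n, I.lab S n t := by
  obtain ⟨e, he⟩ := I.nth h
  obtain ⟨r, h1, h2⟩ := ex_rep h hu
  exact ⟨e.symm ⟨r, h1⟩, hu, r, (he _ _).2 (by rw [Equiv.apply_symm_apply]), h2⟩

theorem lab_surj (h : I.W S) (n : ℕ) : ∃ t, I.lab S n t := by
  obtain ⟨e, he⟩ := I.nth h
  exact ⟨dec K (e n), (e n).2.1, e n, (he _ _).2 rfl, I.refl S h _ (e n).2.1⟩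

theorem lab_eq (h : I.W S) {n m : ℕ} {u v : Fin K → ℕ} (h1 : I.lab S n u) (h2 : I.lab S m v) :
    I.eqv S u v ↔ n = m := by
  obtain ⟨e, he⟩ := I.nth h
  obtain ⟨du, r, k1, k2⟩ := h1
  obtain ⟨dv, s, k3, k4⟩ := h2
  have e1 := (he _ _).1 k1
  have e2 := (he _ _).1 k3
  have hr : I.rp S r := by rw [← e1]; exact (e n).2
  have hs : I.rp S s := by rw [← e2]; exact (e m).2
  constructor
  · intro h3
    have h4 : I.eqv S (dec K r) (dec K s) := I.trans S h _ _ _ hr.1 du hs.1 k2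
      (I.trans S h _ _ _ du dv hs.1 h3 (I.symm S h _ _ hs.1 dv k4))
    have h5 := rep_eq h hr hs h4
    rw [← e1, ← e2] at h5
    exact e.injective (Subtype.ext h5)
  · rintro rfl
    have h5 : r = s := by rw [← e1, ← e2]
    subst h5
    exact I.trans S h _ _ _ du hr.1 dv (I.symm S h _ _ hr.1 du k2) k4

theorem rel_iff [L.IsRelational] (h : I.W S) {n : ℕ} (R : L.Relations n) {u : Fin n → Fin K → ℕ}
    {v : Fin n → ℕ} (hu : ∀ i, I.lab S (v i) (u i)) :
    @Structure.RelMap L ℕ (I.D S) n R v ↔ I.rel R S u := by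
  obtain ⟨e, he⟩ := I.nth h
  have key : ∀ u' : Fin n → ℕ, (∀ i, Nth (I.rp S) (v i) (u' i)) →
      (I.rel R S (fun i => dec K (u' i)) ↔ I.rel R S u) := by
    intro u' h1
    have hd : ∀ i, I.dom S (dec K (u' i)) := fun i => by
      rw [← (he _ _).1 (h1 i)]
      exact (e (v i)).2.1
    have hq : ∀ i, I.eqv S (dec K (u' i)) (u i) := by
      intro i
      obtain ⟨-, r, k1, k2⟩ := hu i
      have e1 := (he _ _).1 k1
      have e2 := (he _ _).1 (h1 i)
      rw [← e2, e1]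
      exact k2
    exact ⟨I.cong S h R _ _ hd (fun i => (hu i).1) hq,
      I.cong S h R _ _ (fun i => (hu i).1) hd (fun i => I.symm S h _ _ (hd i) (hu i).1 (hq i))⟩
  constructor
  · rintro ⟨u', h1, h2⟩
    exact (key u' h1).1 h2
  · intro h2
    refine ⟨fun i => e (v i), fun i => (he _ _).2 rfl, (key _ fun i => (he _ _).2 rfl).2 h2⟩

/-- Translation of formulas. -/
theorem translate (I : Itk K L L') [L.IsRelational] {β : Type} {n : ℕ}
    (φ : L.BoundedFormula β n) :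
    ∃ ψ : L'.Formula ((β ⊕ Fin n) × Fin K), ∀ S : L'.Structure ℕ, I.W S →
      ∀ (w : (β ⊕ Fin n) × Fin K → ℕ) (c : β → ℕ) (d : Fin n → ℕ),
        (∀ i, I.lab S (c i) (fun j => w (Sum.inl i, j))) →
        (∀ i, I.lab S (d i) (fun j => w (Sum.inr i, j))) →
        (@Formula.Realize L' ℕ S _ ψ w ↔
          @BoundedFormula.Realize L ℕ (I.D S) _ _ φ c d) := by
  induction φ with
  | falsum =>
    obtain ⟨ψ, hψ⟩ := FD.const (W := I.W) (α := (β ⊕ Fin _) × Fin K) False
    exact ⟨ψ, fun S hS w c d _ _ => hψ S hS w⟩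
  | @equal n t1 t2 =>
    have hv : ∀ t : L.Term (β ⊕ Fin n), ∃ i, t = Term.var i := by
      intro t
      cases t with
      | var i => exact ⟨i, rfl⟩
      | func f _ => exact isEmptyElim f
    obtain ⟨i1, rfl⟩ := hv t1
    obtain ⟨i2, rfl⟩ := hv t2
    obtain ⟨ψ, hψ⟩ := I.feqv.sub (β := (β ⊕ Fin n) × Fin K) (fun p => (![i1, i2] p.1, p.2))
    refine ⟨ψ, fun S hS w c d hc hd => ?_⟩
    rw [hψ S hS w]
    have hl : ∀ i, I.lab S (Sum.elim c d i) (fun j => w (i, j)) := by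
      rintro (i | i)
      · exact hc i
      · exact hd i
    exact lab_eq hS (hl i1) (hl i2)
  | @rel n l R ts =>
    have hv : ∀ t : L.Term (β ⊕ Fin n), ∃ i, t = Term.var i := by
      intro t
      cases t with
      | var i => exact ⟨i, rfl⟩
      | func f _ => exact isEmptyElim f
    choose g hg using fun i => hv (ts i)
    obtain ⟨ψ, hψ⟩ := (I.frel R).sub (β := (β ⊕ Fin n) × Fin K) (fun p => (g p.1, p.2))
    refine ⟨ψ, fun S hS w c d hc hd => ?_⟩
    rw [hψ S hS w]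
    have hl : ∀ i, I.lab S (Sum.elim c d i) (fun j => w (i, j)) := by
      rintro (i | i)
      · exact hc i
      · exact hd i
    show I.rel R S (fun i j => w (g i, j)) ↔ @Structure.RelMap L ℕ (I.D S) l R _
    rw [← rel_iff hS R (v := fun i => Sum.elim c d (g i)) fun i => hl (g i)]
    have e : (fun i => @Term.realize L ℕ (I.D S) _ (Sum.elim c d) (ts i)) =
        fun i => Sum.elim c d (g i) := by
      funext i
      rw [hg i]
      rfl
    rw [e]
  | @imp n f1 f2 h1 h2 =>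
    obtain ⟨ψ1, hψ1⟩ := h1
    obtain ⟨ψ2, hψ2⟩ := h2
    refine ⟨ψ1.imp ψ2, fun S hS w c d hc hd => ?_⟩
    have e1 := hψ1 S hS w c d hc hd
    have e2 := hψ2 S hS w c d hc hd
    have e3 : @Formula.Realize L' ℕ S _ (ψ1.imp ψ2) w ↔
      (@Formula.Realize L' ℕ S _ ψ1 w → @Formula.Realize L' ℕ S _ ψ2 w) :=
      Formula.realize_imp
    rw [e3, e1, e2]
    exact Iff.rfl
  | @all n f h =>
    obtain ⟨ψ, hψ⟩ := h
    let g : (β ⊕ Fin (n + 1)) × Fin K → ((β ⊕ Fin n) × Fin K) ⊕ Fin K := fun p =>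
      Sum.elim (fun b => Sum.inl (Sum.inl b, p.2))
        (fun i => Fin.lastCases (motive := fun _ => ((β ⊕ Fin n) × Fin K) ⊕ Fin K)
          (Sum.inr p.2) (fun i' => Sum.inl (Sum.inr i', p.2)) i) p.1
    have hfd : FD I.W (fun S w => ∀ b : Fin K → ℕ, I.dom S b →
        @Formula.Realize L' ℕ S _ ψ (fun p => Sum.elim w b (g p))) := by
      refine FD.all (P := fun S w b => I.dom S b →
        @Formula.Realize L' ℕ S _ ψ (fun p => Sum.elim w b (g p))) ?_
      refine (I.fdom.sub (fun j => Sum.inr j)).imp ?_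
      refine ⟨ψ.relabel g, fun S _ v => ?_⟩
      rw [@Formula.realize_relabel L' ℕ S _ _ ψ g v]
      have e : (v ∘ g) = fun p => Sum.elim (fun i => v (Sum.inl i)) (fun i => v (Sum.inr i))
          (g p) := by
        funext p
        show v (g p) = _
        rcases g p with q | q <;> rfl
      rw [e]
    obtain ⟨χ, hχ⟩ := hfd
    refine ⟨χ, fun S hS w c d hc hd => ?_⟩
    rw [hχ S hS w]
    show _ ↔ ∀ a, @BoundedFormula.Realize L ℕ (I.D S) _ _ f c (Fin.snoc d a)
    have key : ∀ (b : Fin K → ℕ) (a : ℕ), I.lab S a b →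
        (@Formula.Realize L' ℕ S _ ψ (fun p => Sum.elim w b (g p)) ↔
          @BoundedFormula.Realize L ℕ (I.D S) _ _ f c (Fin.snoc d a)) := by
      intro b a hb
      refine hψ S hS _ c (Fin.snoc d a) (fun i => hc i) (fun i => ?_)
      refine Fin.lastCases ?_ (fun i' => ?_) i
      · simp only [g, Sum.elim_inr, Fin.lastCases_last, Fin.snoc_last]
        exact hb
      · simp only [g, Sum.elim_inr, Fin.lastCases_castSucc, Sum.elim_inl, Fin.snoc_castSucc]
        exact hd i'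
    constructor
    · intro h a
      obtain ⟨u, hu⟩ := lab_surj hS a
      exact (key u a hu).1 (h _ hu.1)
    · intro h b hb
      obtain ⟨a, ha⟩ := ex_lab hS hb
      exact (key b a ha).2 (h _)

/-- The structures whose interpreted structure is a model of a theory are the models of a
theory. -/
theorem ax_theory (I : Itk K L L') [L.IsRelational] (T : L.Theory) :
    Ax (fun S : L'.Structure ℕ => I.W S ∧ @Theory.Model L ℕ (I.D S) T) := by
  have h : ∀ φ : T, Ax (fun S : L'.Structure ℕ => I.W S ∧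
      @Sentence.Realize L ℕ (I.D S) φ.1) := by
    intro φ
    refine Ax.of_fd I.axW ?_
    obtain ⟨ψ, hψ⟩ := I.translate (φ.1 : L.BoundedFormula Empty 0)
    let e : (Empty ⊕ Fin 0) × Fin K → Empty := fun p =>
      Sum.elim (fun x => x) (fun x => x.elim0) p.1
    refine ⟨ψ.relabel e, fun S hS v => ?_⟩
    rw [@Formula.realize_relabel L' ℕ S _ _ ψ e v]
    rw [hψ S hS (v ∘ e) (fun i => i.elim) (fun i => i.elim0) (fun i => i.elim)
      (fun i => i.elim0)]
    have key : ∀ (a b : Empty → ℕ) (a' b' : Fin 0 → ℕ),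
        @BoundedFormula.Realize L ℕ (I.D S) _ _ φ.1 a a' ↔
          @BoundedFormula.Realize L ℕ (I.D S) _ _ φ.1 b b' := by
      intro a b a' b'
      rw [Subsingleton.elim a b, Subsingleton.elim a' b']
    exact key _ _ _ _
  refine (I.axW.and (Ax.all h)).congr fun S => ?_
  constructor
  · rintro ⟨h1, h2⟩
    exact ⟨h1, (@Theory.model_iff L ℕ (I.D S) T).2 fun φ hφ => (h2 ⟨φ, hφ⟩).2⟩
  · rintro ⟨h1, h2⟩
    exact ⟨h1, fun φ => ⟨h1, (@Theory.model_iff L ℕ (I.D S) T).1 h2 φ.1 φ.2⟩⟩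

theorem W_iso (h : I.W S) (hi : SIso S S') : I.W S' := by
  obtain ⟨T, hT⟩ := I.axW
  exact (hT S').1 (hi.model ((hT S).2 h))

/-- isomorphisms of interpreted structures -/
theorem D_iso_of [L.IsRelational] (h : I.W S) (h' : I.W S') (F : (Fin K → ℕ) → (Fin K → ℕ))
    (hF : ∀ v, I.dom S' v → ∃ u, F u = v ∧ I.dom S u)
    (hd : ∀ u, I.dom S u → I.dom S' (F u))
    (hq : ∀ u v, I.dom S u → I.dom S v → (I.eqv S u v ↔ I.eqv S' (F u) (F v)))
    (hR : ∀ {n : ℕ} (R : L.Relations n) (u : Fin n → Fin K → ℕ), (∀ i, I.dom S (u i)) →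
      (I.rel R S u ↔ I.rel R S' (fun i => F (u i)))) : ∃ τ : ℕ ≃ ℕ, (∀ n, ∀ u, I.lab S n u →
        I.lab S' (τ n) (F u)) ∧ SIso (I.D S) (I.D S') := by
  obtain ⟨τ, hτ⟩ : ∃ τ : ℕ ≃ ℕ, ∀ n, ∀ u, I.lab S n u → I.lab S' (τ n) (F u) := by
    have h1 : ∀ n, ∃ m, ∃ u, I.lab S n u ∧ I.lab S' m (F u) := by
      intro n
      obtain ⟨u, hu⟩ := lab_surj h n
      obtain ⟨m, hm⟩ := ex_lab h' (hd u hu.1)
      exact ⟨m, u, hu, hm⟩
    have h2 : ∀ m, ∃ n, ∃ u, I.lab S n u ∧ I.lab S' m (F u) := by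
      intro m
      obtain ⟨v, hv⟩ := lab_surj h' m
      obtain ⟨u, rfl, hu⟩ := hF v hv.1
      obtain ⟨n, hn⟩ := ex_lab h hu
      exact ⟨n, u, hn, hv⟩
    obtain ⟨τ, hτ⟩ := Pool.Agent.W889.SD.equiv_of_rel
      (fun n m => ∃ u, I.lab S n u ∧ I.lab S' m (F u)) h1 h2
      (by
        rintro n m m' ⟨u, k1, k2⟩ ⟨u', k3, k4⟩
        exact (lab_eq h' k2 k4).1 ((hq _ _ k1.1 k3.1).1 ((lab_eq h k1 k3).2 rfl)))
      (by
        rintro n n' m ⟨u, k1, k2⟩ ⟨u', k3, k4⟩
        exact (lab_eq h k1 k3).1 ((hq _ _ k1.1 k3.1).2 ((lab_eq h' k2 k4).2 rfl)))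
    refine ⟨τ, fun n u hu => ?_⟩
    obtain ⟨u', k1, k2⟩ := hτ n
    obtain ⟨m, hm⟩ := ex_lab h' (hd u hu.1)
    have h3 : I.eqv S' (F u') (F u) := (hq _ _ k1.1 hu.1).1 ((lab_eq h k1 hu).2 rfl)
    have h4 := (lab_eq h' k2 hm).1 h3
    rw [h4]
    exact hm
  obtain ⟨G, -⟩ := siso_of (S := I.D S) (S' := I.D S') τ (fun n R v => by
    choose u hu using fun i => lab_surj h (v i)
    rw [rel_iff h R hu, rel_iff h' R (fun i => hτ _ _ (hu i))]
    exact (hR R u fun i => (hu i).1).symm)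
  exact ⟨τ, hτ, ⟨G⟩⟩

/-- isomorphic structures have isomorphic interpreted structures -/
theorem iso_down [L.IsRelational] (h : I.W S) (hi : SIso S S') : SIso (I.D S) (I.D S') := by
  have h' := I.W_iso h hi
  obtain ⟨f⟩ := hi
  have hd : ∀ u : Fin K → ℕ, I.dom S u ↔ I.dom S' (fun j => f (u j)) := fun u =>
    I.fdom.iso h h' f u
  have hq : ∀ u v : Fin K → ℕ, I.eqv S u v ↔ I.eqv S' (fun j => f (u j)) (fun j => f (v j)) :=
    fun u v => I.feqv.iso h h' f (fun p => ![u, v] p.1 p.2)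
  have hsurj : ∀ v, ∃ u, f u = v := fun v =>
    @FirstOrder.Language.Equiv.surjective L' ℕ ℕ S S' f v
  obtain ⟨τ, -, hr⟩ := D_iso_of h h' (fun u j => f (u j)) (fun v hv => by
    choose u hu using fun j => hsurj (v j)
    have e : (fun j => f (u j)) = v := funext hu
    refine ⟨u, e, (hd u).2 ?_⟩
    rw [e]
    exact hv) (fun u hu => (hd u).1 hu) (fun u v _ _ => hq u v)
    (fun {n} R u _ => (I.frel R).iso h h' f (fun p => u p.1 p.2))
  exact hr

/-- Transfer of the dichotomy. -/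
theorem transfer (I : Itk K L L') [L.IsRelational] [L'.IsRelational]
    [Countable (Σ n, L.Relations n)]
    (hup : ∀ S S', I.W S → I.W S' → SIso (I.D S) (I.D S') → SIso S S') (T : L.Theory)
    (hex : ∀ M : L.Structure ℕ, @Theory.Model L ℕ M T → ∃ S, I.W S ∧ SIso (I.D S) M)
    (hV : ∀ T' : L'.Theory, (∀ S : L'.Structure ℕ, @Theory.Model L' ℕ S T' →
      I.W S ∧ @Theory.Model L ℕ (I.D S) T) → Vaught L' T') : Vaught L T := by
  classical
  obtain ⟨T', hT'⟩ := I.ax_theory T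
  rcases hV T' (fun S hS => (hT' S).1 hS) with ⟨g, hg⟩ | ⟨f, hf1, hf2, hf3⟩
  · left
    refine ⟨fun n => I.D (g n), fun M hM => ?_⟩
    obtain ⟨S, hS, hi⟩ := hex M hM
    obtain ⟨n, hn⟩ := hg S ((hT' S).2 ⟨hS, hi.symm.model hM⟩)
    exact ⟨n, hi.symm.trans (I.iso_down hS hn)⟩
  · right
    have hb : ∀ (n : ℕ) (R : L'.Relations n) (a : Fin n → ℕ),
        BP (fun y => @Structure.RelMap L' ℕ (f y) n R a) := fun n R a =>
      (hf3 n R a).isOpen.measurableSet
    have hW : ∀ y, I.W (f y) := fun y => ((hT' _).1 (hf1 y)).1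
    have hdom : ∀ u, BP (fun y => I.dom (f y) u) := fun u => I.fdom.bp hb hW u
    have heqv : ∀ u v, BP (fun y => I.eqv (f y) u v) := fun u v =>
      I.feqv.bp hb hW (fun p => ![u, v] p.1 p.2)
    have hrp : ∀ u, BP (fun y => I.rp (f y) u) := fun u =>
      (hdom _).and (BP.all fun u' => (BP.const (u' < u)).imp ((hdom _).imp (heqv _ _).not))
    have hD : ∀ {n : ℕ} (R : L.Relations n) (v : Fin n → ℕ),
        BP (fun y => @Structure.RelMap L ℕ (I.D (f y)) n R v) := fun {n} R v =>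
      BP.ex fun u : Fin n → ℕ => (BP.all fun i => bp_nth hrp (v i) (u i)).and
        ((I.frel R).bp hb hW (fun p => dec K (u p.1) p.2))
    have : Countable (Σ n, L.Relations n × (Fin n → ℕ)) := by
      have : ∀ n, Countable (L.Relations n) := fun n =>
        (sigma_mk_injective (β := L.Relations) (i := n)).countable
      infer_instance
    let F : (ℕ → Bool) → ((Σ n, L.Relations n × (Fin n → ℕ)) → Bool) := fun x p =>
      decide (@Structure.RelMap L ℕ (I.D (f x)) p.1 p.2.1 p.2.2)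
    have hF : Measurable F := by
      refine measurable_pi_iff.2 fun p => measurable_to_bool ?_
      refine (congrArg MeasurableSet (Set.ext fun x => ?_)).mp (hD p.2.1 p.2.2)
      simp [F]
    obtain ⟨h, h1, h2⟩ := cont_of_meas hF
    refine ⟨fun x => I.D (f (h x)), fun x => ((hT' _).1 (hf1 _)).2, fun x y hxy => ?_,
      fun n R a => ?_⟩
    · exact h1 (hf2 _ _ (hup _ _ (hW _) (hW _) hxy))
    · have hc : Continuous fun x => F (h x) ⟨n, R, a⟩ :=
        (continuous_apply (⟨n, R, a⟩ : Σ n, L.Relations n × (Fin n → ℕ))).comp h2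
      have hcl : IsClopen ((fun x => F (h x) ⟨n, R, a⟩) ⁻¹' {true}) :=
        (isClopen_discrete {true}).preimage hc
      convert hcl using 1
      ext x
      simp [F]

end Itk

end Pool.Agent.H2.OC
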