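import Pool.Agent.H2.OC.Core
import Pool.Graph.R_pool_sql_team_seeded_3997aac3.Q202.Ryll
import Pool.Graph.R_seed8.W889.FO.Gen

set_option autoImplicit false

/-! Countably categorical theories: the automorphism groups of the models with universe `ℕ`. -/

namespace Pool.Agent.H2.OC

open FirstOrder FirstOrder.Language
open Pool.Agent.W889.FO (SIso)

variable {L : FirstOrder.Language.{0, 0}}

/-- the automorphism group, as a group of permutations -/
def AG (A : L.Structure ℕ) : Subgroup (Equiv.Perm ℕ) where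
  carrier := {σ | ∃ e : @FirstOrder.Language.Equiv L ℕ ℕ A A, ∀ x, e x = σ x}
  mul_mem' := by
    rintro σ τ ⟨e, he⟩ ⟨f, hf⟩
    refine ⟨@FirstOrder.Language.Equiv.comp L ℕ ℕ A A ℕ A e f, fun x => ?_⟩
    show e (f x) = σ (τ x)
    rw [hf, he]
  one_mem' := ⟨@FirstOrder.Language.Equiv.refl L ℕ A, fun _ => rfl⟩
  inv_mem' := by
    rintro σ ⟨e, he⟩
    refine ⟨@FirstOrder.Language.Equiv.symm L ℕ ℕ A A e, fun x => ?_⟩
    rw [Equiv.Perm.eq_inv_iff_eq, ← he]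
    exact @FirstOrder.Language.Equiv.apply_symm_apply L ℕ ℕ A A e x

theorem mem_AG {A : L.Structure ℕ} {σ : Equiv.Perm ℕ} :
    σ ∈ AG A ↔ ∃ e : @FirstOrder.Language.Equiv L ℕ ℕ A A, ∀ x, e x = σ x := Iff.rfl

theorem closed_AG (A : L.Structure ℕ) : Closed (AG A) := by
  intro σ h
  refine ⟨@FirstOrder.Language.Equiv.mk L ℕ ℕ A A σ (fun {n} F v => ?_) (fun {n} R v => ?_),
    fun _ => rfl⟩
  · obtain ⟨g, ⟨e, he⟩, hg⟩ := h (insert (@Structure.funMap L ℕ A n F v) (Set.range v))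
      ((Set.finite_range v).insert _)
    show σ (@Structure.funMap L ℕ A n F v) = @Structure.funMap L ℕ A n F (fun i => σ (v i))
    rw [← hg _ (Set.mem_insert _ _), ← he, @FirstOrder.Language.Equiv.map_fun L ℕ ℕ A A e n F v]
    congr 1
    funext i
    show e (v i) = σ (v i)
    rw [he, hg _ (Set.mem_insert_of_mem _ ⟨i, rfl⟩)]
  · obtain ⟨g, ⟨e, he⟩, hg⟩ := h (Set.range v) (Set.finite_range v)
    have h1 : (fun i => σ (v i)) = e ∘ v := by
      funext i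
      show σ (v i) = e (v i)
      rw [he, hg _ ⟨i, rfl⟩]
    show @Structure.RelMap L ℕ A n R (fun i => σ (v i)) ↔ _
    rw [h1]
    exact @FirstOrder.Language.Equiv.map_rel L ℕ ℕ A A e n R v

/-- There is exactly one model with universe `ℕ`, up to isomorphism. -/
def Cat (T : L.Theory) : Prop :=
  (∃ A : L.Structure ℕ, @Theory.Model L ℕ A T) ∧ ∀ A B : L.Structure ℕ,
    @Theory.Model L ℕ A T → @Theory.Model L ℕ B T → SIso A B

variable {T : L.Theory} {A : L.Structure ℕ}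

theorem on_nat' (B : Type) [L.Structure B] [Countable B] [Infinite B] (hB : B ⊨ T) :
    ∃ A' : L.Structure ℕ, @Theory.Model L ℕ A' T ∧
      Nonempty (@FirstOrder.Language.Equiv L B ℕ _ A') := by
  obtain ⟨e⟩ : Nonempty (B ≃ ℕ) := nonempty_equiv_of_countable
  let A' : L.Structure ℕ := e.inducedStructure
  let e' : @FirstOrder.Language.Equiv L B ℕ _ A' := Equiv.inducedStructureEquiv e
  refine ⟨A', (@Theory.model_iff L ℕ A' T).2 fun φ hφ => ?_, ⟨e'⟩⟩
  exact (@StrongHomClass.realize_sentence L B ℕ _ A' _ _ _ e' φ).1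
    ((@Theory.model_iff L B _ T).1 hB φ hφ)

theorem omegaCat (h : Cat T) (hA : @Theory.Model L ℕ A T) : @Q202.Ryll.OmegaCat L ℕ A := by
  intro B _ hB hAB
  have hI : Infinite B := @ElementarilyEquivalent.infinite L ℕ B A _ _ hAB
  have hT : B ⊨ T := (@ElementarilyEquivalent.theory_model_iff L ℕ B A _ T hAB).1 hA
  obtain ⟨A', hA', ⟨e'⟩⟩ := on_nat' B hT
  obtain ⟨f⟩ := h.2 A A' hA hA'
  exact ⟨@FirstOrder.Language.Equiv.comp L ℕ ℕ A A' B _
    (@FirstOrder.Language.Equiv.symm L B ℕ _ A' e') f⟩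

variable [Countable L.Symbols]

theorem lf_AG (h : Cat T) (hA : @Theory.Model L ℕ A T) : LocFin (AG A) := by
  classical
  intro B hB
  obtain ⟨n, b, hb⟩ : ∃ (n : ℕ) (b : Fin n → ℕ), Set.range b = B := by
    obtain ⟨n, b, hb1, hb2⟩ := hB.fin_param
    exact ⟨n, b, hb2⟩
  obtain ⟨s, hs, hs'⟩ := @Q202.Ryll.finite_orbits L _ ℕ A _ _ _ (omegaCat h hA) (Fin n ⊕ Unit) _
  let P : (Fin n ⊕ Unit → ℕ) → ℕ → Prop := fun x a => a ∈ cl (AG A) B ∧
    ∃ g : @FirstOrder.Language.Equiv L ℕ ℕ A A, ∀ i, g (x i) = Sum.elim b (fun _ => a) i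
  let r : (Fin n ⊕ Unit → ℕ) → ℕ := fun x => if h : ∃ a, P x a then h.choose else 0
  have hfin : (⋃ x ∈ {x ∈ s | ∃ a, P x a}, Ob (AG A) B (r x)).Finite := by
    refine Set.Finite.biUnion (hs.subset fun x hx => hx.1) ?_
    rintro x ⟨-, hx⟩
    have e : r x = hx.choose := dif_pos hx
    rw [e]
    exact hx.choose_spec.1
  refine hfin.subset fun a ha => ?_
  obtain ⟨x, hx, g, hg⟩ := hs' (Sum.elim b (fun _ => a))
  have hex : ∃ a, P x a := ⟨a, ha, g, hg⟩
  refine Set.mem_iUnion₂.2 ⟨x, ⟨hx, hex⟩, ?_⟩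
  have e : r x = hex.choose := dif_pos hex
  obtain ⟨-, g', hg'⟩ := hex.choose_spec
  rw [e]
  let γ := @FirstOrder.Language.Equiv.comp L ℕ ℕ A A ℕ A g
    (@FirstOrder.Language.Equiv.symm L ℕ ℕ A A g')
  have hγ : ∀ i : Fin n ⊕ Unit, γ (Sum.elim b (fun _ => hex.choose) i) = Sum.elim b (fun _ => a) i := by
    intro i
    rw [← hg' i, ← hg i]
    show g (@FirstOrder.Language.Equiv.symm L ℕ ℕ A A g' (g' (x i))) = g (x i)
    rw [@FirstOrder.Language.Equiv.symm_apply_apply L ℕ ℕ A A g' (x i)]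
  refine ⟨@FirstOrder.Language.Equiv.toEquiv L ℕ ℕ A A γ, ⟨⟨γ, fun _ => rfl⟩, ?_⟩,
    hγ (Sum.inr ())⟩
  intro c hc
  rw [← hb] at hc
  obtain ⟨i, rfl⟩ := hc
  exact hγ (Sum.inl i)

theorem bound_cl (h : Cat T) (hA : @Theory.Model L ℕ A T) (k : ℕ) :
    ∃ K, ∀ v : Fin k → ℕ, (cl (AG A) (Set.range v)).ncard < K := by
  classical
  obtain ⟨s, hs, hs'⟩ := @Q202.Ryll.finite_orbits L _ ℕ A _ _ _ (omegaCat h hA) (Fin k) _
  refine ⟨hs.toFinset.sup (fun x => (cl (AG A) (Set.range x)).ncard) + 1, fun v => ?_⟩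
  obtain ⟨x, hx, g, hg⟩ := hs' v
  let γ : Equiv.Perm ℕ := @FirstOrder.Language.Equiv.toEquiv L ℕ ℕ A A g
  have h1 : Set.range v = γ '' Set.range x := by
    rw [← Set.range_comp]
    congr 1
    funext i
    exact (hg i).symm
  rw [h1, cl_image (G := AG A) (g := γ) ⟨g, fun _ => rfl⟩, Set.ncard_image_of_injective _
    γ.injective]
  exact Nat.lt_succ_of_le (Finset.le_sup (f := fun x => (cl (AG A) (Set.range x)).ncard)
    (hs.mem_toFinset.2 hx))

/-- the orbits are definable -/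
theorem orb_def (h : Cat T) (hA : @Theory.Model L ℕ A T) {β : Type} [Finite β] (b : β → ℕ) :
    ∃ θ : L.Formula β, ∀ A' : L.Structure ℕ, @Theory.Model L ℕ A' T → ∀ x : β → ℕ,
      @Formula.Realize L ℕ A' β θ x ↔
        ∃ f : @FirstOrder.Language.Equiv L ℕ ℕ A' A, ∀ i, f (x i) = b i := by
  obtain ⟨θ, h1, h2⟩ := @Q202.Ryll.exists_isolates L _ ℕ A _ (omegaCat h hA) β _ b
  refine ⟨θ, fun A' hA' x => ⟨fun hx => ?_, ?_⟩⟩
  · obtain ⟨f0⟩ := h.2 A' A hA' hA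
    have h3 : @Formula.Realize L ℕ A β θ (fun i => f0 (x i)) :=
      (@StrongHomClass.realize_formula L ℕ ℕ A' A β _ _ _ f0 θ x).2 hx
    obtain ⟨g, hg⟩ := @Q202.Ryll.exists_aut L _ ℕ A _ _ (omegaCat h hA) β _
      (fun i => f0 (x i)) b (fun φ => (h2 _ h3 φ).symm)
    exact ⟨@FirstOrder.Language.Equiv.comp L ℕ ℕ A' A ℕ A g f0, hg⟩
  · rintro ⟨f, hf⟩
    rw [← @StrongHomClass.realize_formula L ℕ ℕ A' A β _ _ _ f θ x]
    have e : (f ∘ x) = b := funext hf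
    rw [e]
    exact h1

end Pool.Agent.H2.OC
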