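import Pool.Agent.H2.OC.Lang
import Pool.Agent.H2.OC.Rn
import Pool.Agent.H2.OC.Itk
import Pool.Graph.R_seed8.TH686.FO.Rec

set_option autoImplicit false

/-! The expansions of the models of a countably categorical theory: axioms. -/

namespace Pool.Agent.H2.OC

open FirstOrder FirstOrder.Language
open Pool.Agent.W889.FO hiding D W
open Pool.Agent.W889.FO.St0 (RF LF W D)
open Pool.Agent.W889.FO.StE (LG gd)
open Pool.Agent.W889.FO.StA (FD.all1 FD.ex1)

variable {L : FirstOrder.Language.{0, 0}} {m K J : ℕ}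

/-- the reduct -/
@[reducible] def Red (M : (L.sum (rl m)).Structure ℕ) : L.Structure ℕ :=
  @LHom.reduct L (L.sum (rl m)) LHom.sumInl ℕ M

/-- the additional relation -/
def RR (M : (L.sum (rl m)).Structure ℕ) (v : Fin m → ℕ) : Prop :=
  @Structure.RelMap (L.sum (rl m)) ℕ M m (Sum.inr One.R) v

/-- the indices -/
def ix (K J : ℕ) : Fin (K + (K + (J + 2))) ≃ Fin K ⊕ (Fin K ⊕ Fin (J + 2)) :=
  finSumFinEquiv.symm.trans (Equiv.sumCongr (Equiv.refl _) finSumFinEquiv.symm)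

/-- the tuple with the parts `x`, `y`, `w` -/
def ap (x y : Fin K → ℕ) (w : Fin (J + 2) → ℕ) : Fin (K + (K + (J + 2))) → ℕ :=
  fun i => Sum.elim x (Sum.elim y w) (ix K J i)

theorem ap_surj (v : Fin (K + (K + (J + 2))) → ℕ) :
    v = ap (fun i => v ((ix K J).symm (Sum.inl i))) (fun i => v ((ix K J).symm (Sum.inr (Sum.inl i))))
      (fun i => v ((ix K J).symm (Sum.inr (Sum.inr i)))) := by
  funext i
  obtain ⟨j, rfl⟩ := (ix K J).symm.surjective i
  show _ = Sum.elim _ (Sum.elim _ _) (ix K J ((ix K J).symm j))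
  rw [Equiv.apply_symm_apply]
  rcases j with j | j | j <;> rfl

theorem ap_comp (f : ℕ → ℕ) (x y : Fin K → ℕ) (w : Fin (J + 2) → ℕ) :
    (fun i => f (ap x y w i)) = ap (fun i => f (x i)) (fun i => f (y i)) (fun i => f (w i)) := by
  funext i
  show f (Sum.elim x (Sum.elim y w) (ix K J i)) = Sum.elim _ (Sum.elim _ _) (ix K J i)
  rcases ix K J i with j | j | j <;> rfl

variable (L K J) in
/-- the language of the expansions -/
abbrev LX : FirstOrder.Language.{0, 0} := L.sum (rl (K + (K + (J + 2))))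

/-- the equivalence relation of the tuples -/
def EE (M : (LX L K J).Structure ℕ) (x y : Fin K → ℕ) : Prop := ∃ a, RR M (ap x y fun _ => a)

/-- the binary relation of the tuples -/
def QQ (M : (LX L K J).Structure ℕ) (x y : Fin K → ℕ) : Prop :=
  ∃ w : Fin (J + 2) → ℕ, w 0 ≠ w 1 ∧ RR M (ap x y w)

/-- `x` corresponds to `b` in `A` -/
def Orb (A : L.Structure ℕ) {β : Type} (b : β → ℕ) (M : (LX L K J).Structure ℕ) (x : β → ℕ) : Prop :=
  ∃ f : @FirstOrder.Language.Equiv L ℕ ℕ (Red M) A, ∀ i, f (x i) = b i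

/-- the axioms -/
structure WM (T : L.Theory) (A : L.Structure ℕ) (M : (LX L K J).Structure ℕ) : Prop where
  red : @Theory.Model L ℕ (Red M) T
  inj : ∀ x y w, RR M (ap x y w) → Function.Injective x ∧ Function.Injective y
  dep : ∀ (x y : Fin K → ℕ) (w w' : Fin (J + 2) → ℕ), (w 0 = w 1 ↔ w' 0 = w' 1) →
    RR M (ap x y w) → RR M (ap x y w')
  refl : ∀ x, Function.Injective x → EE M x x
  symm : ∀ x y, EE M x y → EE M y x
  trans : ∀ x y z, EE M x y → EE M y z → EE M x z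
  cong : ∀ x x' y y', EE M x x' → EE M y y' → QQ M x y → QQ M x' y'
  inf : ∀ N, ∃ X : Fin N → Fin K → ℕ, (∀ i, Function.Injective (X i)) ∧
    ∀ i j, i ≠ j → ¬ EE M (X i) (X j)
  gen : ∀ (n m : ℕ) (b : Fin n → ℕ) (d : Fin m → ℕ), cl (AG A) (Set.range b) ⊆ Set.range b →
    Function.Injective d → ∀ x : Fin n → ℕ, Orb A b M x →
      ∀ z : (Fin K → Fin m) → Fin K → ℕ, (∀ t, Function.Injective (z t)) →
        ∃ y : Fin m → ℕ, Orb A (Sum.elim b d) M (Sum.elim x y) ∧ ∀ t : Fin K → Fin m,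
          Function.Injective t → (¬ ∀ i, d (t i) ∈ Set.range b) → EE M (fun i => y (t i)) (z t)

/-- the basic class -/
def V0 (T : L.Theory) (S : (LF (LX L K J)).Structure ℕ) : Prop :=
  W S ∧ @Theory.Model L ℕ (Red (D S)) T

theorem red_model (T : L.Theory) (M : (LX L K J).Structure ℕ) :
    @Theory.Model (LX L K J) ℕ M ((LHom.sumInl : L →ᴸ LX L K J).onTheory T) ↔
      @Theory.Model L ℕ (Red M) T :=
  @LHom.onTheory_model L (LX L K J) ℕ (Red M) M LHom.sumInl (LHom.isExpansionOn_reduct _ _) T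

theorem ax_V0 (T : L.Theory) : Ax (V0 (K := K) (J := J) T) :=
  (St0.ax_theory (L := LX L K J) ((LHom.sumInl : L →ᴸ LX L K J).onTheory T)).congr fun S =>
    and_congr Iff.rfl (red_model T (D S))

section fd

variable {T : L.Theory} {α : Type}

theorem fd_RR (tx ty : Fin K → α) (tw : Fin (J + 2) → α) :
    FD (V0 (K := K) (J := J) T) (fun S v => RR (D S) (ap (fun i => v (tx i)) (fun i => v (ty i))
      (fun i => v (tw i)))) := by
  refine (FD.rel (W := V0 (K := K) (J := J) T) (L := LF (LX L K J)) (RF.rel (Sum.inr One.R))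
    (fun i => Sum.elim tx (Sum.elim ty tw) (ix K J i))).congr fun S _ v => ?_
  have e : (fun i => v (Sum.elim tx (Sum.elim ty tw) (ix K J i))) =
      ap (fun i => v (tx i)) (fun i => v (ty i)) (fun i => v (tw i)) := by
    funext i
    show _ = Sum.elim _ (Sum.elim _ _) (ix K J i)
    rcases ix K J i with j | j | j <;> rfl
  rw [e]
  exact Iff.rfl

theorem fd_EE (tx ty : Fin K → α) :
    FD (V0 (K := K) (J := J) T) (fun S v => EE (D S) (fun i => v (tx i)) (fun i => v (ty i))) :=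
  FD.ex1 (P := fun S v a => RR (D S) (ap (fun i => v (tx i)) (fun i => v (ty i)) fun _ => a))
    (fd_RR (fun i => Sum.inl (tx i)) (fun i => Sum.inl (ty i)) fun _ => Sum.inr ())

theorem fd_QQ (tx ty : Fin K → α) :
    FD (V0 (K := K) (J := J) T) (fun S v => QQ (D S) (fun i => v (tx i)) (fun i => v (ty i))) :=
  FD.ex (P := fun S v (w : Fin (J + 2) → ℕ) => w 0 ≠ w 1 ∧
    RR (D S) (ap (fun i => v (tx i)) (fun i => v (ty i)) w))
    ((FD.eq (Sum.inr 0) (Sum.inr 1)).not.and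
      (fd_RR (fun i => Sum.inl (tx i)) (fun i => Sum.inl (ty i)) fun i => Sum.inr i))

theorem fd_Orb [Countable L.Symbols] {A : L.Structure ℕ} (hc : Cat T)
    (hA : @Theory.Model L ℕ A T) {β : Type} [Finite β] (b : β → ℕ) (t : β → α) :
    FD (V0 (K := K) (J := J) T) (fun S v => Orb A b (D S) (fun i => v (t i))) := by
  obtain ⟨θ, hθ⟩ := orb_def hc hA b
  let θ' : (LX L K J).Formula β := (LHom.sumInl : L →ᴸ LX L K J).onFormula θ
  have h1 := (St0.trans (L := LX L K J) (θ' : (LX L K J).BoundedFormula β 0)).sub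
    (Sum.elim t (fun i => i.elim0) : β ⊕ Fin 0 → α)
  refine (h1.mono fun S hS => hS.1).congr fun S hS v => ?_
  have h2 : @Formula.Realize (LX L K J) ℕ (D S) β θ' (fun i => v (t i)) ↔
      @Formula.Realize L ℕ (Red (D S)) β θ (fun i => v (t i)) :=
    @LHom.realize_onFormula L (LX L K J) ℕ (Red (D S)) β (D S) LHom.sumInl
      (@LHom.isExpansionOn_reduct L (LX L K J) LHom.sumInl ℕ (D S)) θ _
  refine Iff.trans (Iff.trans ?_ h2) (hθ (Red (D S)) hS.2 fun i => v (t i))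
  have key : ∀ a b' : Fin 0 → ℕ,
      @BoundedFormula.Realize (LX L K J) ℕ (D S) _ _ θ' (fun i => v (t i)) a ↔
        @BoundedFormula.Realize (LX L K J) ℕ (D S) _ _ θ' (fun i => v (t i)) b' := by
    intro a b'
    rw [Subsingleton.elim a b']
  exact key _ _

end fd

/-- universal sentences over the basic class -/
theorem axo {T : L.Theory} {β : Type} [Finite β] {P : (LF (LX L K J)).Structure ℕ → (β → ℕ) → Prop}
    (h : FD (V0 T) P) : Ax (fun S => V0 T S ∧ ∀ v, P S v) :=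
  Ax.of_fd (ax_V0 T) (FD.all (P := fun S _ v => P S v) (h.sub fun i => Sum.inr i))

theorem axa {T : L.Theory} {ι : Type} {P : ι → (LF (LX L K J)).Structure ℕ → Prop}
    (h : ∀ i, Ax (fun S => V0 T S ∧ P i S)) : Ax (fun S => V0 T S ∧ ∀ i, P i S) := by
  refine ((ax_V0 T).and (Ax.all h)).congr fun S => ?_
  exact ⟨fun ⟨h1, h2⟩ => ⟨h1, fun i => (h2 i).2⟩, fun ⟨h1, h2⟩ => ⟨h1, fun i => ⟨h1, h2 i⟩⟩⟩

theorem ax_WM [Countable L.Symbols] {T : L.Theory} {A : L.Structure ℕ} (hc : Cat T)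
    (hA : @Theory.Model L ℕ A T) :
    Ax (fun S : (LF (LX L K J)).Structure ℕ => W S ∧ WM T A (D S)) := by
  have h1 : Ax (fun S : (LF (LX L K J)).Structure ℕ => V0 T S ∧
      ∀ v : Fin K ⊕ (Fin K ⊕ Fin (J + 2)) → ℕ,
      RR (D S) (ap (fun i => v (Sum.inl i)) (fun i => v (Sum.inr (Sum.inl i)))
        (fun i => v (Sum.inr (Sum.inr i)))) → Function.Injective (fun i => v (Sum.inl i)) ∧
          Function.Injective (fun i => v (Sum.inr (Sum.inl i)))) :=
    axo ((fd_RR _ _ _).imp ((FD.inj _).and (FD.inj _)))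
  have h2 : Ax (fun S : (LF (LX L K J)).Structure ℕ => V0 T S ∧
      ∀ v : Fin K ⊕ (Fin K ⊕ (Fin (J + 2) ⊕ Fin (J + 2))) → ℕ,
      (v (Sum.inr (Sum.inr (Sum.inl 0))) = v (Sum.inr (Sum.inr (Sum.inl 1))) ↔
        v (Sum.inr (Sum.inr (Sum.inr 0))) = v (Sum.inr (Sum.inr (Sum.inr 1)))) →
      RR (D S) (ap (fun i => v (Sum.inl i)) (fun i => v (Sum.inr (Sum.inl i)))
        (fun i => v (Sum.inr (Sum.inr (Sum.inl i))))) →
      RR (D S) (ap (fun i => v (Sum.inl i)) (fun i => v (Sum.inr (Sum.inl i)))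
        (fun i => v (Sum.inr (Sum.inr (Sum.inr i)))))) :=
    axo (((FD.eq _ _).iff (FD.eq _ _)).imp ((fd_RR _ _ _).imp (fd_RR _ _ _)))
  have h3 : Ax (fun S : (LF (LX L K J)).Structure ℕ => V0 T S ∧ ∀ v : Fin K → ℕ,
      Function.Injective (fun i => v i) → EE (D S) (fun i => v i) (fun i => v i)) :=
    axo ((FD.inj _).imp (fd_EE _ _))
  have h4 : Ax (fun S : (LF (LX L K J)).Structure ℕ => V0 T S ∧ ∀ v : Fin K ⊕ Fin K → ℕ,
      EE (D S) (fun i => v (Sum.inl i)) (fun i => v (Sum.inr i)) →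
      EE (D S) (fun i => v (Sum.inr i)) (fun i => v (Sum.inl i))) :=
    axo ((fd_EE _ _).imp (fd_EE _ _))
  have h5 : Ax (fun S : (LF (LX L K J)).Structure ℕ => V0 T S ∧
      ∀ v : Fin K ⊕ (Fin K ⊕ Fin K) → ℕ,
      EE (D S) (fun i => v (Sum.inl i)) (fun i => v (Sum.inr (Sum.inl i))) →
      EE (D S) (fun i => v (Sum.inr (Sum.inl i))) (fun i => v (Sum.inr (Sum.inr i))) →
      EE (D S) (fun i => v (Sum.inl i)) (fun i => v (Sum.inr (Sum.inr i)))) :=
    axo ((fd_EE _ _).imp ((fd_EE _ _).imp (fd_EE _ _)))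
  have h6 : Ax (fun S : (LF (LX L K J)).Structure ℕ => V0 T S ∧
      ∀ v : (Fin K ⊕ Fin K) ⊕ (Fin K ⊕ Fin K) → ℕ,
      EE (D S) (fun i => v (Sum.inl (Sum.inl i))) (fun i => v (Sum.inl (Sum.inr i))) →
      EE (D S) (fun i => v (Sum.inr (Sum.inl i))) (fun i => v (Sum.inr (Sum.inr i))) →
      QQ (D S) (fun i => v (Sum.inl (Sum.inl i))) (fun i => v (Sum.inr (Sum.inl i))) →
      QQ (D S) (fun i => v (Sum.inl (Sum.inr i))) (fun i => v (Sum.inr (Sum.inr i)))) :=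
    axo ((fd_EE _ _).imp ((fd_EE _ _).imp ((fd_QQ _ _).imp (fd_QQ _ _))))
  have h7 : Ax (fun S : (LF (LX L K J)).Structure ℕ => V0 T S ∧ ∀ N : ℕ,
      ∃ X : Fin N × Fin K → ℕ, (∀ i, Function.Injective (fun j => X (i, j))) ∧
        ∀ i j, i ≠ j → ¬ EE (D S) (fun l => X (i, l)) (fun l => X (j, l))) := by
    refine axa fun N => Ax.of_fd (ax_V0 T) ?_
    refine FD.ex (P := fun S _ (X : Fin N × Fin K → ℕ) =>
      (∀ i, Function.Injective (fun j => X (i, j))) ∧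
        ∀ i j, i ≠ j → ¬ EE (D S) (fun l => X (i, l)) (fun l => X (j, l))) ?_
    exact (FD.fin fun i => FD.inj _).and
      (FD.fin fun i => FD.fin fun j => (FD.const _).imp (fd_EE _ _).not)
  have h8 : Ax (fun S : (LF (LX L K J)).Structure ℕ => V0 T S ∧
      ∀ q : {q : Σ n m : ℕ, (Fin n → ℕ) × (Fin m → ℕ) //
        cl (AG A) (Set.range q.2.2.1) ⊆ Set.range q.2.2.1 ∧ Function.Injective q.2.2.2},
      ∀ v : Fin q.1.1 ⊕ ((Fin K → Fin q.1.2.1) × Fin K) → ℕ,
        Orb A q.1.2.2.1 (D S) (fun i => v (Sum.inl i)) →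
        (∀ t, Function.Injective fun j => v (Sum.inr (t, j))) →
        ∃ y : Fin q.1.2.1 → ℕ, Orb A (Sum.elim q.1.2.2.1 q.1.2.2.2) (D S)
          (fun i => Sum.elim (fun i => v (Sum.inl i)) y i) ∧
          ∀ t : Fin K → Fin q.1.2.1, Function.Injective t →
            (¬ ∀ i, q.1.2.2.2 (t i) ∈ Set.range q.1.2.2.1) →
            EE (D S) (fun i => y (t i)) (fun j => v (Sum.inr (t, j)))) := by
    refine axa fun q => axo ?_
    refine (fd_Orb hc hA _ _).imp ((FD.fin fun t => FD.inj _).imp ?_)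
    refine FD.ex (P := fun S (v : Fin q.1.1 ⊕ ((Fin K → Fin q.1.2.1) × Fin K) → ℕ)
      (y : Fin q.1.2.1 → ℕ) => Orb A (Sum.elim q.1.2.2.1 q.1.2.2.2) (D S)
          (fun i => Sum.elim (fun i => v (Sum.inl i)) y i) ∧
          ∀ t : Fin K → Fin q.1.2.1, Function.Injective t →
            (¬ ∀ i, q.1.2.2.2 (t i) ∈ Set.range q.1.2.2.1) →
            EE (D S) (fun i => y (t i)) (fun j => v (Sum.inr (t, j)))) ?_
    refine ((fd_Orb hc hA (Sum.elim q.1.2.2.1 q.1.2.2.2)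
      (Sum.map (fun i => Sum.inl i) (fun i => i))).congr fun S _ v => ?_).and
      (FD.fin fun t => (FD.const _).imp ((FD.const _).imp (fd_EE _ _)))
    have e : (fun i => v (Sum.map (fun i => Sum.inl i) (fun i => i) i)) =
        fun i => Sum.elim (fun i => v (Sum.inl (Sum.inl i))) (fun i => v (Sum.inr i)) i := by
      funext i
      rcases i with i | i <;> rfl
    rw [e]
  refine (h1.and (h2.and (h3.and (h4.and (h5.and (h6.and (h7.and h8))))))).congr fun S => ?_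
  constructor
  · rintro ⟨⟨⟨k0, k0'⟩, k1⟩, ⟨-, k2⟩, ⟨-, k3⟩, ⟨-, k4⟩, ⟨-, k5⟩, ⟨-, k6⟩, ⟨-, k7⟩, ⟨-, k8⟩⟩
    refine ⟨k0, k0', fun x y w => k1 (Sum.elim x (Sum.elim y w)),
      fun x y w w' => k2 (Sum.elim x (Sum.elim y (Sum.elim w w'))), k3,
      fun x y => k4 (Sum.elim x y), fun x y z => k5 (Sum.elim x (Sum.elim y z)),
      fun x x' y y' => k6 (Sum.elim (Sum.elim x x') (Sum.elim y y')), fun N => ?_, ?_⟩
    · obtain ⟨X, h1, h2⟩ := k7 N
      exact ⟨fun i j => X (i, j), h1, h2⟩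
    · intro n m b d hb hd x hx z hz
      exact k8 ⟨⟨n, m, b, d⟩, hb, hd⟩ (Sum.elim x fun p => z p.1 p.2) hx hz
  · rintro ⟨k0, k⟩
    have hV : V0 T S := ⟨k0, k.red⟩
    refine ⟨⟨hV, fun v => k.inj _ _ _⟩, ⟨hV, fun v => k.dep _ _
      (fun i => v (Sum.inr (Sum.inr (Sum.inl i)))) (fun i => v (Sum.inr (Sum.inr (Sum.inr i))))⟩, ⟨hV, fun v => k.refl _⟩,
      ⟨hV, fun v => k.symm _ _⟩, ⟨hV, fun v => k.trans _ _ _⟩, ⟨hV, fun v => k.cong _ _ _ _⟩,
      ⟨hV, fun N => ?_⟩, ⟨hV, fun q v h1 h2 => ?_⟩⟩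
    · obtain ⟨X, h1, h2⟩ := k.inf N
      exact ⟨fun p => X p.1 p.2, h1, h2⟩
    · exact k.gen _ _ _ _ q.2.1 q.2.2 _ h1 (fun t j => v (Sum.inr (t, j))) h2

end Pool.Agent.H2.OC
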