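import Pool.Agent.H2.OC.Cls
import Pool.Agent.H2.TM.Fun

set_option autoImplicit false

/-! The expansions of the models of a countably categorical theory: colourings. -/

namespace Pool.Agent.H2.OC

open FirstOrder FirstOrder.Language
open Pool.Agent.W889.FO hiding D W
open Pool.Agent.W889.FO.St0 (RF LF W D)
open Pool.Agent.W889.FO.StE (LG gd)

variable {L : FirstOrder.Language.{0, 0}} {K J : ℕ} {T : L.Theory} {A : L.Structure ℕ}

theorem WM.rr_iff {M : (LX L K J).Structure ℕ} (h : WM T A M) (x y : Fin K → ℕ) (w : Fin (J + 2) → ℕ) :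
    RR M (ap x y w) ↔ (w 0 = w 1 ∧ EE M x y) ∨ (w 0 ≠ w 1 ∧ QQ M x y) := by
  constructor
  · intro h1
    by_cases hw : w 0 = w 1
    · exact Or.inl ⟨hw, 0, h.dep x y w _ (by simp [hw]) h1⟩
    · exact Or.inr ⟨hw, w, hw, h1⟩
  · rintro (⟨hw, a, ha⟩ | ⟨hw, w', hw', h1⟩)
    · exact h.dep x y _ w (by simp [hw]) ha
    · exact h.dep x y w' w (by simp [hw, hw']) h1

/-- the interpretation -/
noncomputable def IX [Countable L.Symbols] (K J : ℕ) (hc : Cat T) (hA : @Theory.Model L ℕ A T) :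
    Itk K LG (LF (LX L K J)) where
  W := fun S => W S ∧ WM T A (D S)
  axW := ax_WM hc hA
  dom := fun _ t => Function.Injective t
  eqv := fun S x y => EE (D S) x y
  rel := fun {n} R S u => match n, R with
    | _, FirstOrder.Language.graphRel.adj => QQ (D S) (u 0) (u 1)
  fdom := FD.inj (fun i => i)
  feqv := (fd_EE (T := T) (fun j : Fin K => ((0 : Fin 2), j))
    (fun j => ((1 : Fin 2), j))).mono fun S hS => ⟨hS.1, hS.2.red⟩
  frel := fun {n} R => match n, R with
    | _, FirstOrder.Language.graphRel.adj => (fd_QQ (T := T) (fun j : Fin K => ((0 : Fin 2), j))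
      (fun j => ((1 : Fin 2), j))).mono fun S hS => ⟨hS.1, hS.2.red⟩
  refl := fun S hS u hu => hS.2.refl u hu
  symm := fun S hS u v _ _ h => hS.2.symm u v h
  trans := fun S hS u v w _ _ _ h h' => hS.2.trans u v w h h'
  cong := fun S hS {n} R u v _ _ hq => match n, R, u, v, hq with
    | _, FirstOrder.Language.graphRel.adj, u, v, hq =>
      fun h => hS.2.cong (u 0) (v 0) (u 1) (v 1) (hq 0) (hq 1) h
  inf := fun S hS N => hS.2.inf N

/-- the permutation of an isomorphism -/
abbrev pe {A A' : L.Structure ℕ} (e : @FirstOrder.Language.Equiv L ℕ ℕ A A') : Equiv.Perm ℕ :=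
  @FirstOrder.Language.Equiv.toEquiv L ℕ ℕ A A' e

theorem conj_AG {A A' : L.Structure ℕ} (e : @FirstOrder.Language.Equiv L ℕ ℕ A A')
    {σ : Equiv.Perm ℕ} (hσ : σ ∈ AG A) : pe e * σ * (pe e)⁻¹ ∈ AG A' := by
  obtain ⟨f, hf⟩ := hσ
  refine ⟨@FirstOrder.Language.Equiv.comp L ℕ ℕ A' A ℕ A'
    (@FirstOrder.Language.Equiv.comp L ℕ ℕ A A ℕ A' e f)
    (@FirstOrder.Language.Equiv.symm L ℕ ℕ A A' e), fun x => ?_⟩
  show e (f (@FirstOrder.Language.Equiv.symm L ℕ ℕ A A' e x)) = e (σ ((pe e)⁻¹ x))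
  rw [hf]
  rfl

theorem pe_symm {A A' : L.Structure ℕ} (e : @FirstOrder.Language.Equiv L ℕ ℕ A A') :
    pe (@FirstOrder.Language.Equiv.symm L ℕ ℕ A A' e) = (pe e)⁻¹ := rfl

theorem cl_iso_sub {A A' : L.Structure ℕ} (e : @FirstOrder.Language.Equiv L ℕ ℕ A A')
    (B : Set ℕ) : pe e '' cl (AG A) B ⊆ cl (AG A') (pe e '' B) := by
  rintro _ ⟨a, ha, rfl⟩
  refine (Set.Finite.image (pe e) ha).subset ?_
  rintro x ⟨h, hh, rfl⟩
  have h1 := conj_AG (@FirstOrder.Language.Equiv.symm L ℕ ℕ A A' e) hh.1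
  rw [pe_symm, inv_inv] at h1
  refine ⟨((pe e)⁻¹ * h * pe e) a, ⟨_, ⟨h1, fun b hb => ?_⟩, rfl⟩, ?_⟩
  · show (pe e)⁻¹ (h (pe e b)) = b
    rw [hh.2 _ ⟨b, hb, rfl⟩]
    exact Equiv.symm_apply_apply (pe e) b
  · show pe e ((pe e)⁻¹ (h (pe e a))) = h (pe e a)
    exact Equiv.apply_symm_apply (pe e) _

theorem cl_iso {A A' : L.Structure ℕ} (e : @FirstOrder.Language.Equiv L ℕ ℕ A A')
    (B : Set ℕ) : cl (AG A') (pe e '' B) = pe e '' cl (AG A) B := by
  refine Set.Subset.antisymm ?_ (cl_iso_sub e B)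
  intro a ha
  have h1 := cl_iso_sub (@FirstOrder.Language.Equiv.symm L ℕ ℕ A A' e) (pe e '' B) ⟨a, ha, rfl⟩
  rw [pe_symm, ← Set.image_comp] at h1
  have e1 : (⇑(pe e)⁻¹ ∘ ⇑(pe e)) = id := by
    funext x
    exact Equiv.symm_apply_apply (pe e) x
  rw [e1, Set.image_id] at h1
  exact ⟨_, h1, Equiv.apply_symm_apply (pe e) a⟩

/-- transport of generic colourings -/
theorem Gen.iso {X : Type} {A A' : L.Structure ℕ} (e : @FirstOrder.Language.Equiv L ℕ ℕ A A')
    {c : (Fin K → ℕ) → X} (h : Gen (AG A') c) : Gen (AG A) (fun t => c (fun i => e (t i))) := by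
  intro B hB hBc D' hD hBD χ
  obtain ⟨k, hk, hk'⟩ := h (pe e '' B) (hB.image _) (by
    rw [cl_iso]
    exact Set.image_mono hBc) (pe e '' D') (hD.image _) (Set.image_mono hBD)
    (fun t => χ (fun i => (pe e)⁻¹ (t i)))
  have h1 := conj_AG (@FirstOrder.Language.Equiv.symm L ℕ ℕ A A' e) hk.1
  rw [pe_symm, inv_inv] at h1
  refine ⟨_, ⟨h1, fun b hb => ?_⟩, fun t ht htD htB => ?_⟩
  · show (pe e)⁻¹ (k (pe e b)) = b
    rw [hk.2 _ ⟨b, hb, rfl⟩]
    exact Equiv.symm_apply_apply (pe e) b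
  · have h2 := hk' (fun i => pe e (t i)) (fun i j hij => ht ((pe e).injective hij))
      (fun i => ⟨_, htD i, rfl⟩) (fun hall => htB fun i => by
        obtain ⟨b, hb, hb'⟩ := hall i
        rw [← (pe e).injective hb']
        exact hb)
    have e1 : (fun i => (pe e)⁻¹ (pe e (t i))) = t := by
      funext i
      exact Equiv.symm_apply_apply (pe e) (t i)
    rw [e1] at h2
    rw [← h2]
    show c (fun i => e (((pe e)⁻¹ * k * pe e) (t i))) = c fun i => k (pe e (t i))
    congr 1
    funext i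
    exact Equiv.apply_symm_apply (pe e) _

theorem Gen.map {X Y : Type} {G : Subgroup (Equiv.Perm ℕ)} {c : (Fin K → ℕ) → X} (h : Gen G c)
    (τ : X ≃ Y) : Gen G (fun t => τ (c t)) := by
  intro B hB hBc D' hD hBD χ
  obtain ⟨k, hk, hk'⟩ := h B hB hBc D' hD hBD (fun t => τ.symm (χ t))
  refine ⟨k, hk, fun t ht htD htB => ?_⟩
  show τ (c _) = χ t
  rw [hk' t ht htD htB, Equiv.apply_symm_apply]

section col

variable [Countable L.Symbols] {hc : Cat T} {hA : @Theory.Model L ℕ A T}
  {S S' : (LF (LX L K J)).Structure ℕ}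

open Classical in
/-- the colour of a tuple -/
noncomputable def col (I : Itk K LG (LF (LX L K J))) (S : (LF (LX L K J)).Structure ℕ)
    (t : Fin K → ℕ) : ℕ := if h : ∃ n, I.lab S n t then h.choose else 0

theorem col_lab (h : (IX K J hc hA).W S) {t : Fin K → ℕ} (ht : Function.Injective t) :
    (IX K J hc hA).lab S (col (IX K J hc hA) S t) t := by
  have hex : ∃ n, (IX K J hc hA).lab S n t := Itk.ex_lab h ht
  have e : col (IX K J hc hA) S t = hex.choose := dif_pos hex
  rw [e]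
  exact hex.choose_spec

theorem col_eq (h : (IX K J hc hA).W S) {t : Fin K → ℕ} {n : ℕ} (ht : (IX K J hc hA).lab S n t) :
    col (IX K J hc hA) S t = n :=
  (Itk.lab_eq h (col_lab h ht.1) ht).1 (h.2.refl t ht.1)

theorem col_iff (h : (IX K J hc hA).W S) {x y : Fin K → ℕ} (hx : Function.Injective x)
    (hy : Function.Injective y) : EE (D S) x y ↔ col (IX K J hc hA) S x = col (IX K J hc hA) S y :=
  Itk.lab_eq h (col_lab h hx) (col_lab h hy)

theorem qq_iff (h : (IX K J hc hA).W S) {x y : Fin K → ℕ} (hx : Function.Injective x)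
    (hy : Function.Injective y) : QQ (D S) x y ↔
      gd ((IX K J hc hA).D S) (col (IX K J hc hA) S x) (col (IX K J hc hA) S y) := by
  have h1 := Itk.rel_iff h (FirstOrder.Language.graphRel.adj) (u := ![x, y])
    (v := ![col (IX K J hc hA) S x, col (IX K J hc hA) S y]) (fun i => by
      fin_cases i
      · exact col_lab h hx
      · exact col_lab h hy)
  exact h1.symm

theorem gen_col (h : (IX K J hc hA).W S) : Gen (AG (Red (D S))) (col (IX K J hc hA) S) := by
  classical
  intro B hB hBc D' hD hBD χ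
  obtain ⟨e⟩ := hc.2 (Red (D S)) A h.2.red hA
  obtain ⟨n, b0, hb1, hb0⟩ := hB.fin_param
  obtain ⟨m, d0, hd1, hd0⟩ := hD.fin_param
  choose z hz using fun t : Fin K → Fin m =>
    Itk.lab_surj (I := IX K J hc hA) h (χ fun i => d0 (t i))
  have hrb : Set.range (fun i => e (b0 i)) = pe e '' B := by
    rw [← hb0, ← Set.range_comp]
    rfl
  obtain ⟨y, ⟨f, hf⟩, hy⟩ := h.2.gen n m (fun i => e (b0 i)) (fun i => e (d0 i)) (by
      rw [hrb, cl_iso]
      exact Set.image_mono hBc) (fun i j hij => hd1 ((pe e).injective hij)) b0 ⟨e, fun _ => rfl⟩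
    z (fun t => (hz t).1)
  have hfb : ∀ i, f (b0 i) = e (b0 i) := fun i => hf (Sum.inl i)
  have hfd : ∀ j, f (y j) = e (d0 j) := fun j => hf (Sum.inr j)
  refine ⟨(pe f)⁻¹ * pe e, ⟨?_, fun x hx => ?_⟩, fun t ht htD htB => ?_⟩
  · exact ⟨@FirstOrder.Language.Equiv.comp L ℕ ℕ (Red (D S)) A ℕ (Red (D S))
      (@FirstOrder.Language.Equiv.symm L ℕ ℕ (Red (D S)) A f) e, fun _ => rfl⟩
  · rw [← hb0] at hx
    obtain ⟨i, rfl⟩ := hx
    show (pe f)⁻¹ (e (b0 i)) = b0 i
    rw [← hfb]
    exact Equiv.symm_apply_apply (pe f) _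
  · have hex : ∀ i, ∃ j, d0 j = t i := fun i => by
      have := htD i
      rw [← hd0] at this
      exact this
    choose t' ht' using hex
    have e1 : (fun i => d0 (t' i)) = t := funext ht'
    have ht'i : Function.Injective t' := fun i j hij => ht (by rw [← ht', ← ht', hij])
    have h1 := hy t' ht'i (fun hall => htB fun i => by
      have h2 := hall i
      rw [hrb] at h2
      obtain ⟨x, hx, hx'⟩ := h2
      have h3 : x = d0 (t' i) := (pe e).injective hx'
      rw [← ht', ← h3]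
      exact hx)
    have e2 : (fun i => ((pe f)⁻¹ * pe e) (t i)) = fun i => y (t' i) := by
      funext i
      show (pe f)⁻¹ (e (t i)) = y (t' i)
      rw [← ht', ← hfd]
      exact Equiv.symm_apply_apply (pe f) _
    have hyi : Function.Injective (fun i => y (t' i)) := by
      rw [← e2]
      intro i j hij
      exact ht (((pe f)⁻¹ * pe e).injective hij)
    rw [e2, (col_iff h hyi (hz t').1).1 h1, col_eq h (hz t'), e1]

/-- isomorphisms of the expansions -/
theorem iso_of_lab {M M' : (LX L K J).Structure ℕ} (h : WM T A M) (h' : WM T A M')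
    (e : @FirstOrder.Language.Equiv L ℕ ℕ (Red M) (Red M'))
    (hE : ∀ x y, Function.Injective x → Function.Injective y →
      (EE M x y ↔ EE M' (fun i => e (x i)) (fun i => e (y i))))
    (hQ : ∀ x y, Function.Injective x → Function.Injective y →
      (QQ M x y ↔ QQ M' (fun i => e (x i)) (fun i => e (y i)))) :
    ∃ f : @FirstOrder.Language.Equiv (LX L K J) ℕ ℕ M M', ∀ x, f x = e x := by
  refine ⟨@FirstOrder.Language.Equiv.mk (LX L K J) ℕ ℕ M M' (pe e) (fun {n} F v => ?_)
    (fun {n} R v => ?_), fun _ => rfl⟩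
  · rcases F with F | F
    · exact @FirstOrder.Language.Equiv.map_fun L ℕ ℕ (Red M) (Red M') e n F v
    · exact Empty.elim F
  · rcases R with R | R
    · exact @FirstOrder.Language.Equiv.map_rel L ℕ ℕ (Red M) (Red M') e n R v
    · cases R with
      | R =>
        show RR M' (fun i => pe e (v i)) ↔ RR M v
        obtain ⟨x, y, w, rfl⟩ : ∃ x y w, v = ap x y w := ⟨_, _, _, ap_surj v⟩
        rw [ap_comp (pe e)]
        by_cases hx : Function.Injective x
        · by_cases hy : Function.Injective y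
          · rw [h.rr_iff, h'.rr_iff, hE x y hx hy, hQ x y hx hy, (pe e).injective.eq_iff,
              (pe e).injective.ne_iff]
            exact Iff.rfl
          · refine iff_of_false (fun h1 => hy fun i j hij => ?_) fun h1 => hy (h.inj _ _ _ h1).2
            exact (h'.inj _ _ _ h1).2 (congrArg (pe e) hij)
        · refine iff_of_false (fun h1 => hx fun i j hij => ?_) fun h1 => hx (h.inj _ _ _ h1).1
          exact (h'.inj _ _ _ h1).1 (congrArg (pe e) hij)

end col

end Pool.Agent.H2.OC
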