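import Mathlib

set_option autoImplicit false

/-!
Permutation groups with locally finite algebraic closure, and generic colourings of tuples.
-/

namespace Pool.Agent.H2.OC

open scoped Pointwise

variable (G : Subgroup (Equiv.Perm ℕ))

/-- the pointwise stabiliser -/
def Fx (B : Set ℕ) : Subgroup (Equiv.Perm ℕ) where
  carrier := {g | g ∈ G ∧ ∀ b ∈ B, g b = b}
  mul_mem' := by
    rintro g h ⟨h1, h2⟩ ⟨h3, h4⟩
    refine ⟨G.mul_mem h1 h3, fun b hb => ?_⟩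
    rw [Equiv.Perm.mul_apply, h4 b hb, h2 b hb]
  one_mem' := ⟨G.one_mem, fun _ _ => rfl⟩
  inv_mem' := by
    rintro g ⟨h1, h2⟩
    refine ⟨G.inv_mem h1, fun b hb => ?_⟩
    rw [Equiv.Perm.inv_eq_iff_eq, h2 b hb]

/-- the orbit over a set -/
def Ob (B : Set ℕ) (a : ℕ) : Set ℕ := {x | ∃ g ∈ Fx G B, g a = x}

/-- the algebraic closure -/
def cl (B : Set ℕ) : Set ℕ := {a | (Ob G B a).Finite}

variable {G}

theorem mem_Fx {B : Set ℕ} {g : Equiv.Perm ℕ} : g ∈ Fx G B ↔ g ∈ G ∧ ∀ b ∈ B, g b = b := Iff.rfl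

theorem subset_cl (B : Set ℕ) : B ⊆ cl G B := by
  intro b hb
  refine (Set.finite_singleton b).subset ?_
  rintro x ⟨g, hg, rfl⟩
  exact hg.2 b hb

theorem cl_mono {B B' : Set ℕ} (h : B ⊆ B') : cl G B ⊆ cl G B' := by
  intro a ha
  refine Set.Finite.subset ha ?_
  rintro x ⟨g, hg, rfl⟩
  exact ⟨g, ⟨hg.1, fun b hb => hg.2 b (h hb)⟩, rfl⟩

theorem cl_inv {B : Set ℕ} {g : Equiv.Perm ℕ} (hg : g ∈ Fx G B) {a : ℕ} (ha : a ∈ cl G B) :
    g a ∈ cl G B := by
  refine Set.Finite.subset ha ?_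
  rintro x ⟨h, hh, rfl⟩
  exact ⟨h * g, (Fx G B).mul_mem hh hg, rfl⟩

theorem cl_cl {B : Set ℕ} (hB : (cl G B).Finite) : cl G (cl G B) ⊆ cl G B := by
  classical
  intro a ha
  have : Finite (cl G B) := hB
  -- the restrictions to the closure
  let r : Fx G B → (cl G B → cl G B) := fun g x => ⟨(g : Equiv.Perm ℕ) x, cl_inv g.2 x.2⟩
  have hr : (Set.range r).Finite := Set.toFinite _
  have hr' : Finite (Set.range r) := hr
  choose s hs using fun q : Set.range r => q.2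
  have hfin : (⋃ q : Set.range r, (s q : Equiv.Perm ℕ) '' Ob G (cl G B) a).Finite :=
    Set.finite_iUnion fun q => Set.Finite.image _ ha
  refine hfin.subset ?_
  rintro x ⟨g, hg, rfl⟩
  let q : Set.range r := ⟨r ⟨g, hg⟩, ⟨g, hg⟩, rfl⟩
  refine Set.mem_iUnion.2 ⟨q, (((s q : Equiv.Perm ℕ))⁻¹ * g) a, ?_, ?_⟩
  · refine ⟨_, ⟨G.mul_mem (G.inv_mem (s q).2.1) hg.1, fun b hb => ?_⟩, rfl⟩
    rw [Equiv.Perm.mul_apply, Equiv.Perm.inv_eq_iff_eq]
    have h1 := congrFun (hs q) ⟨b, hb⟩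
    exact (congrArg Subtype.val h1).symm
  · show (s q : Equiv.Perm ℕ) (((s q : Equiv.Perm ℕ))⁻¹ (g a)) = g a
    exact Equiv.apply_symm_apply _ _

theorem Fx_conj {B : Set ℕ} {g h : Equiv.Perm ℕ} (hg : g ∈ G) (hh : h ∈ Fx G B) :
    g * h * g⁻¹ ∈ Fx G (g '' B) := by
  refine ⟨G.mul_mem (G.mul_mem hg hh.1) (G.inv_mem hg), ?_⟩
  rintro _ ⟨b, hb, rfl⟩
  show g (h (g⁻¹ (g b))) = g b
  have e : g⁻¹ (g b) = b := Equiv.symm_apply_apply g b
  rw [e, hh.2 b hb]

theorem cl_image_sub {B : Set ℕ} {g : Equiv.Perm ℕ} (hg : g ∈ G) : g '' cl G B ⊆ cl G (g '' B) := by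
  rintro _ ⟨a, ha, rfl⟩
  refine (Set.Finite.image g ha).subset ?_
  rintro x ⟨h, hh, rfl⟩
  refine ⟨(g⁻¹ * h * g) a, ⟨g⁻¹ * h * g, ?_, rfl⟩, ?_⟩
  · have h1 := Fx_conj (G := G) (G.inv_mem hg) hh
    rw [inv_inv, ← Set.image_comp] at h1
    have e : (⇑g⁻¹ ∘ ⇑g) = id := by
      funext x
      exact Equiv.symm_apply_apply g x
    rw [e, Set.image_id] at h1
    exact h1
  · show g (g⁻¹ (h (g a))) = h (g a)
    exact Equiv.apply_symm_apply _ _

theorem cl_image {B : Set ℕ} {g : Equiv.Perm ℕ} (hg : g ∈ G) : cl G (g '' B) = g '' cl G B := by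
  refine Set.Subset.antisymm ?_ (cl_image_sub hg)
  intro a ha
  have h1 := cl_image_sub (G := G) (B := g '' B) (G.inv_mem hg) ⟨a, ha, rfl⟩
  rw [← Set.image_comp] at h1
  have e : (⇑g⁻¹ ∘ ⇑g) = id := by
    funext x
    exact Equiv.symm_apply_apply g x
  rw [e, Set.image_id] at h1
  exact ⟨_, h1, Equiv.apply_symm_apply _ _⟩

/-- a finite set of elements which are not algebraic can be moved off a finite set -/
theorem neumann {B : Set ℕ} (hB : cl G B ⊆ B) {D F : Set ℕ} (hDf : D.Finite) (hFf : F.Finite)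
    (hD : ∀ d ∈ D, d ∉ B) : ∃ h ∈ Fx G B, ∀ d ∈ D, h d ∉ F := by
  classical
  by_contra hcon
  push Not at hcon
  let s : Finset (ℕ × ℕ) := (hDf.toFinset ×ˢ hFf.toFinset).filter
    fun i => ∃ h : Fx G B, (h : Equiv.Perm ℕ) i.1 = i.2
  let H : ℕ × ℕ → Subgroup (Fx G B) := fun i => MulAction.stabilizer (Fx G B) i.1
  let g : ℕ × ℕ → Fx G B := fun i =>
    if h : ∃ h : Fx G B, (h : Equiv.Perm ℕ) i.1 = i.2 then h.choose else 1
  have hcov : ⋃ i ∈ s, (g i) • (H i : Set (Fx G B)) = Set.univ := by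
    refine Set.eq_univ_of_forall fun h => ?_
    obtain ⟨d, hd, hdF⟩ := hcon h h.2
    have hex : ∃ h' : Fx G B, (h' : Equiv.Perm ℕ) d = (h : Equiv.Perm ℕ) d := ⟨h, rfl⟩
    refine Set.mem_iUnion₂.2 ⟨(d, (h : Equiv.Perm ℕ) d), ?_, ?_⟩
    · rw [Finset.mem_filter, Finset.mem_product]
      exact ⟨⟨hDf.mem_toFinset.2 hd, hFf.mem_toFinset.2 hdF⟩, hex⟩
    · have e : g (d, (h : Equiv.Perm ℕ) d) = hex.choose := dif_pos hex
      rw [Set.mem_smul_set_iff_inv_smul_mem, e]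
      show _ ∈ MulAction.stabilizer (Fx G B) d
      rw [MulAction.mem_stabilizer_iff]
      show ((hex.choose : Equiv.Perm ℕ)⁻¹ * (h : Equiv.Perm ℕ)) d = d
      rw [Equiv.Perm.mul_apply, Equiv.Perm.inv_eq_iff_eq, hex.choose_spec]
  obtain ⟨i, hi, hfi⟩ := Subgroup.exists_finiteIndex_of_leftCoset_cover hcov
  rw [Finset.mem_filter, Finset.mem_product] at hi
  refine hD i.1 (hDf.mem_toFinset.1 hi.1.1) (hB ?_)
  have h1 : Finite (Fx G B ⧸ H i) := Subgroup.finite_quotient_of_finiteIndex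
  have h2 : Finite (MulAction.orbit (Fx G B) i.1) :=
    Finite.of_equiv _ (MulAction.orbitEquivQuotientStabilizer (Fx G B) i.1).symm
  refine Set.Finite.subset (s := MulAction.orbit (Fx G B) i.1) h2 ?_
  rintro x ⟨h, hh, rfl⟩
  exact ⟨⟨h, hh⟩, rfl⟩

/-! ### Generic colourings -/

variable {K : ℕ} {X : Type}

/-- generic colourings of the injective tuples -/
def Gen (G : Subgroup (Equiv.Perm ℕ)) (c : (Fin K → ℕ) → X) : Prop :=
  ∀ B : Set ℕ, B.Finite → cl G B ⊆ B → ∀ D : Set ℕ, D.Finite → B ⊆ D →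
    ∀ χ : (Fin K → ℕ) → X, ∃ h ∈ Fx G B, ∀ t : Fin K → ℕ, Function.Injective t →
      (∀ i, t i ∈ D) → (¬ ∀ i, t i ∈ B) → c (fun i => h (t i)) = χ t

/-- a state of the back-and-forth -/
structure PI (G : Subgroup (Equiv.Perm ℕ)) (c c' : (Fin K → ℕ) → X) (B : Set ℕ)
    (g : Equiv.Perm ℕ) : Prop where
  fin : B.Finite
  cls : cl G B ⊆ B
  mem : g ∈ G
  col : ∀ t : Fin K → ℕ, Function.Injective t → (∀ i, t i ∈ B) → c' (fun i => g (t i)) = c t

/-- the algebraic closures of finite sets are finite -/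
def LocFin (G : Subgroup (Equiv.Perm ℕ)) : Prop := ∀ B : Set ℕ, B.Finite → (cl G B).Finite

/-- the group is closed -/
def Closed (G : Subgroup (Equiv.Perm ℕ)) : Prop :=
  ∀ σ : Equiv.Perm ℕ, (∀ F : Set ℕ, F.Finite → ∃ g ∈ G, ∀ a ∈ F, g a = σ a) → σ ∈ G

variable {c c' : (Fin K → ℕ) → X}

theorem PI.inv {B : Set ℕ} {g : Equiv.Perm ℕ} (h : PI G c c' B g) : PI G c' c (g '' B) g⁻¹ where
  fin := h.fin.image g
  cls := by
    rw [cl_image h.mem]
    exact Set.image_mono h.cls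
  mem := G.inv_mem h.mem
  col := by
    intro t ht htB
    have h1 : ∀ i, g⁻¹ (t i) ∈ B := by
      intro i
      obtain ⟨b, hb, hb'⟩ := htB i
      rw [← hb']
      have e : g⁻¹ (g b) = b := Equiv.symm_apply_apply g b
      rw [e]
      exact hb
    have h2 := h.col (fun i => g⁻¹ (t i)) (fun i j hij => ht (g⁻¹.injective hij)) h1
    rw [← h2]
    congr 1
    funext i
    exact Equiv.apply_symm_apply g (t i)

theorem PI.forth (hLF : LocFin G) (hc' : Gen G c') {B : Set ℕ} {g : Equiv.Perm ℕ}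
    (h : PI G c c' B g) (a : ℕ) : ∃ (B' : Set ℕ) (g' : Equiv.Perm ℕ), PI G c c' B' g' ∧ B ⊆ B' ∧
      a ∈ B' ∧ ∀ x ∈ B, g' x = g x := by
  let D := cl G (insert a B)
  have hDf : D.Finite := hLF _ (h.fin.insert a)
  have hBD : B ⊆ D := (Set.subset_insert a B).trans (subset_cl _)
  obtain ⟨k, hk, hk'⟩ := hc' (g '' B) h.inv.fin h.inv.cls (g '' D) (hDf.image g)
    (Set.image_mono hBD) (fun t => c (fun i => g⁻¹ (t i)))
  refine ⟨D, k * g, ⟨hDf, cl_cl hDf, G.mul_mem hk.1 h.mem, ?_⟩, hBD,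
    subset_cl _ (Set.mem_insert a B), fun x hx => ?_⟩
  · intro t ht htD
    by_cases htB : ∀ i, t i ∈ B
    · rw [← h.col t ht htB]
      congr 1
      funext i
      exact hk.2 _ ⟨_, htB i, rfl⟩
    · have h1 := hk' (fun i => g (t i)) (fun i j hij => ht (g.injective hij))
        (fun i => ⟨_, htD i, rfl⟩) (fun hall => htB fun i => by
          obtain ⟨b, hb, hb'⟩ := hall i
          rw [← g.injective hb']
          exact hb)
      show c' (fun i => k (g (t i))) = c t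
      rw [h1]
      congr 1
      funext i
      exact Equiv.symm_apply_apply g (t i)
  · exact hk.2 _ ⟨x, hx, rfl⟩

theorem PI.step (hLF : LocFin G) (hc : Gen G c) (hc' : Gen G c') {B : Set ℕ} {g : Equiv.Perm ℕ}
    (h : PI G c c' B g) (a : ℕ) : ∃ (B' : Set ℕ) (g' : Equiv.Perm ℕ), PI G c c' B' g' ∧ B ⊆ B' ∧
      a ∈ B' ∧ (∃ x ∈ B', g' x = a) ∧ ∀ x ∈ B, g' x = g x := by
  obtain ⟨B1, g1, h1, h2, h3, h4⟩ := h.forth hLF hc' a
  obtain ⟨B2, g2, k1, k2, k3, k4⟩ := h1.inv.forth hLF hc a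
  have k5 := k1.inv
  have hg : ∀ x ∈ B1, g2⁻¹ x = g1 x := by
    intro x hx
    rw [Equiv.Perm.inv_eq_iff_eq, k4 _ ⟨x, hx, rfl⟩]
    exact (Equiv.symm_apply_apply g1 x).symm
  have hB : B1 ⊆ g2 '' B2 := by
    intro x hx
    refine ⟨g1 x, k2 ⟨x, hx, rfl⟩, ?_⟩
    rw [k4 _ ⟨x, hx, rfl⟩]
    exact Equiv.symm_apply_apply g1 x
  exact ⟨g2 '' B2, g2⁻¹, k5, h2.trans hB, hB h3, ⟨g2 a, ⟨a, k3, rfl⟩,
    Equiv.symm_apply_apply g2 a⟩, fun x hx => by rw [hg x (h2 hx), h4 x hx]⟩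

/-- **The back-and-forth.** -/
theorem PI.extend (hLF : LocFin G) (hcl : Closed G) (hc : Gen G c) (hc' : Gen G c') {B : Set ℕ}
    {g : Equiv.Perm ℕ} (h : PI G c c' B g) : ∃ σ ∈ G, (∀ x ∈ B, σ x = g x) ∧
      ∀ t : Fin K → ℕ, Function.Injective t → c' (fun i => σ (t i)) = c t := by
  classical
  let St : Type := {p : Set ℕ × Equiv.Perm ℕ // PI G c c' p.1 p.2}
  have hstep : ∀ (p : St) (a : ℕ), ∃ q : St, p.1.1 ⊆ q.1.1 ∧ a ∈ q.1.1 ∧
      (∃ x ∈ q.1.1, q.1.2 x = a) ∧ ∀ x ∈ p.1.1, q.1.2 x = p.1.2 x := by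
    intro p a
    obtain ⟨B', g', h1, h2, h3, h4, h5⟩ := p.2.step hLF hc hc' a
    exact ⟨⟨(B', g'), h1⟩, h2, h3, h4, h5⟩
  choose nx hn1 hn2 hn3 hn4 using hstep
  let s : ℕ → St := fun n => Nat.rec ⟨(B, g), h⟩ (fun m p => nx p m) n
  have hs : ∀ n, s (n + 1) = nx (s n) n := fun n => rfl
  have hmono : ∀ n m, n ≤ m → (s n).1.1 ⊆ (s m).1.1 ∧ ∀ x ∈ (s n).1.1,
      (s m).1.2 x = (s n).1.2 x := by
    intro n m hnm
    induction m, hnm using Nat.le_induction with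
    | base => exact ⟨subset_rfl, fun _ _ => rfl⟩
    | succ m _ ih =>
      rw [hs]
      exact ⟨ih.1.trans (hn1 _ _), fun x hx => by rw [hn4 _ _ x (ih.1 hx), ih.2 x hx]⟩
  have hmem : ∀ a, a ∈ (s (a + 1)).1.1 := fun a => by
    rw [hs]
    exact hn2 _ _
  let f : ℕ → ℕ := fun a => (s (a + 1)).1.2 a
  have hf : ∀ n, ∀ x ∈ (s n).1.1, f x = (s n).1.2 x := by
    intro n x hx
    rcases le_total n (x + 1) with h1 | h1
    · exact (hmono _ _ h1).2 x hx
    · exact ((hmono _ _ h1).2 x (hmem x)).symm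
  have hin : Function.Injective f := by
    intro x y hxy
    have hx := (hmono (x + 1) (max (x + 1) (y + 1)) (le_max_left _ _)).1 (hmem x)
    have hy := (hmono (y + 1) (max (x + 1) (y + 1)) (le_max_right _ _)).1 (hmem y)
    rw [hf _ x hx, hf _ y hy] at hxy
    exact (s _).1.2.injective hxy
  have hsu : Function.Surjective f := by
    intro a
    obtain ⟨x, hx, hx'⟩ := hn3 (s a) a
    have h1 : x ∈ (s (a + 1)).1.1 := by
      rw [hs]
      exact hx
    refine ⟨x, ?_⟩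
    rw [hf (a + 1) x h1, hs]
    exact hx'
  let σ : Equiv.Perm ℕ := Equiv.ofBijective f ⟨hin, hsu⟩
  have hbig : ∀ F : Set ℕ, F.Finite → ∃ n, ∀ a ∈ F, a ∈ (s n).1.1 := by
    intro F hF
    refine ⟨hF.toFinset.sup (fun a => a + 1), fun a ha => ?_⟩
    exact (hmono (a + 1) _ (Finset.le_sup (f := fun a => a + 1) (hF.mem_toFinset.2 ha))).1 (hmem a)
  refine ⟨σ, hcl σ fun F hF => ?_, fun x hx => hf 0 x hx, fun t ht => ?_⟩
  · obtain ⟨n, hn⟩ := hbig F hF
    exact ⟨(s n).1.2, (s n).2.mem, fun a ha => (hf n a (hn a ha)).symm⟩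
  · obtain ⟨n, hn⟩ := hbig (Set.range t) (Set.finite_range t)
    rw [← (s n).2.col t ht fun i => hn _ ⟨i, rfl⟩]
    congr 1
    funext i
    exact hf n _ (hn _ ⟨i, rfl⟩)

/-- there are no new algebraic elements -/
theorem Gen.noalg (hLF : LocFin G) (hcl : Closed G) (hc : Gen G c) {F : Set ℕ} (hF : F.Finite)
    {a : ℕ} (ha : a ∉ cl G F) : ({x | ∃ σ ∈ Fx G F, (∀ t : Fin K → ℕ, Function.Injective t →
      c (fun i => σ (t i)) = c t) ∧ σ a = x} : Set ℕ).Infinite := by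
  intro hE
  set E := {x | ∃ σ ∈ Fx G F, (∀ t : Fin K → ℕ, Function.Injective t →
      c (fun i => σ (t i)) = c t) ∧ σ a = x} with hEd
  have hBf := hLF F hF
  have hBc : cl G (cl G F) ⊆ cl G F := cl_cl hBf
  let B2 := cl G (cl G F ∪ E)
  have hB2f : B2.Finite := hLF _ (hBf.union hE)
  have hB2c : cl G B2 ⊆ B2 := cl_cl hB2f
  have hBB2 : cl G F ⊆ B2 := Set.subset_union_left.trans (subset_cl _)
  have hEB2 : E ⊆ B2 := Set.subset_union_right.trans (subset_cl _)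
  let D := cl G (insert a (cl G F))
  have hDf : D.Finite := hLF _ (hBf.insert a)
  have hDc : cl G D ⊆ D := cl_cl hDf
  have haD : a ∈ D := subset_cl _ (Set.mem_insert _ _)
  have hBD : cl G F ⊆ D := (Set.subset_insert _ _).trans (subset_cl _)
  obtain ⟨g, hg, hg'⟩ := neumann hBc (D := D \ cl G F) (F := B2) (hDf.subset Set.sdiff_subset) hB2f
    (fun d hd => hd.2)
  obtain ⟨h, hh, hh'⟩ := hc B2 hB2f hB2c (B2 ∪ g '' D) (hB2f.union (hDf.image g))
    Set.subset_union_left (fun t => c (fun i => g⁻¹ (t i)))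
  have hPI : PI G c c D (h * g) := by
    refine ⟨hDf, hDc, G.mul_mem hh.1 hg.1, fun t ht htD => ?_⟩
    show c (fun i => h (g (t i))) = c t
    by_cases htB : ∀ i, t i ∈ cl G F
    · congr 1
      funext i
      rw [hg.2 _ (htB i), hh.2 _ (hBB2 (htB i))]
    · push Not at htB
      obtain ⟨i0, hi0⟩ := htB
      rw [hh' (fun i => g (t i)) (fun i j hij => ht (g.injective hij))
        (fun i => Or.inr ⟨_, htD i, rfl⟩) fun hall => hg' _ ⟨htD i0, hi0⟩ (hall i0)]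
      congr 1
      funext i
      exact Equiv.symm_apply_apply g (t i)
  obtain ⟨σ, h1, h2, h3⟩ := hPI.extend hLF hcl hc hc
  have h4 : σ ∈ Fx G F := ⟨h1, fun b hb => by
    have hb' := subset_cl (G := G) F hb
    rw [h2 b (hBD hb')]
    show h (g b) = b
    rw [hg.2 b hb', hh.2 b (hBB2 hb')]⟩
  have h5 : σ a ∈ E := ⟨σ, h4, h3, rfl⟩
  rw [h2 a haD] at h5
  have h6 : h (g a) ∈ B2 := hEB2 h5
  have h7 : h (h (g a)) = h (g a) := hh.2 _ h6
  have h8 := h.injective h7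
  have h9 : g a ∈ B2 := by
    rw [← h8]
    exact h6
  exact hg' a ⟨haD, ha⟩ h9

/-- **Existence of generic colourings.** -/
theorem exists_gen (G : Subgroup (Equiv.Perm ℕ)) (K : ℕ) : ∃ c : (Fin K → ℕ) → ℕ, Gen G c := by
  classical
  let Rq : Type := Finset ℕ × Finset ℕ × ((Fin K → ℕ) →₀ ℕ)
  obtain ⟨r, hr⟩ : ∃ r : ℕ → Rq, Function.Surjective r := exists_surjective_nat Rq
  -- the requirement number `n`
  let V : ℕ → Prop := fun n => cl G ((r n).1 : Set ℕ) ⊆ (r n).1 ∧ (r n).1 ⊆ (r n).2.1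
  have hex : ∀ (n : ℕ) (F : Finset ℕ), ∃ h : Equiv.Perm ℕ, V n →
      h ∈ Fx G ((r n).1 : Set ℕ) ∧ ∀ d ∈ (r n).2.1, d ∉ (r n).1 → h d ∉ F := by
    intro n F
    by_cases hV : V n
    · obtain ⟨h, h1, h2⟩ := neumann (G := G) hV.1 (D := ((r n).2.1 : Set ℕ) \ (r n).1)
        (F := (F : Set ℕ)) ((Finset.finite_toSet _).subset Set.sdiff_subset)
        (Finset.finite_toSet _) (fun d hd => hd.2)
      exact ⟨h, fun _ => ⟨h1, fun d hd hd' => h2 d ⟨hd, hd'⟩⟩⟩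
    · exact ⟨1, fun h => absurd h hV⟩
  choose hh hhs using hex
  let U : ℕ → Finset ℕ := fun n => Nat.rec ∅
    (fun m F => F ∪ ((r m).1 ∪ (r m).2.1.image (hh m F))) n
  have hU : ∀ n, U (n + 1) = U n ∪ ((r n).1 ∪ (r n).2.1.image (hh n (U n))) := fun n => rfl
  have hUm : ∀ n m, n ≤ m → U n ⊆ U m := by
    intro n m hnm
    induction m, hnm using Nat.le_induction with
    | base => exact subset_rfl
    | succ m _ ih =>
      rw [hU]
      exact ih.trans Finset.subset_union_left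
  let g : ℕ → Equiv.Perm ℕ := fun n => hh n (U n)
  -- the tuple `u` is coloured at the stage `n`
  let Cd : ℕ → (Fin K → ℕ) → Prop := fun n u => V n ∧ ∃ t : Fin K → ℕ,
    (∀ i, t i ∈ (r n).2.1) ∧ (¬ ∀ i, t i ∈ (r n).1) ∧ u = fun i => g n (t i)
  have huniq : ∀ n m u, n < m → Cd n u → ¬ Cd m u := by
    rintro n m u hnm ⟨-, t, h1, -, rfl⟩ ⟨hV, t', h1', h2', h3'⟩
    push Not at h2'
    obtain ⟨i, hi⟩ := h2'
    refine (hhs m (U m) hV).2 (t' i) (h1' i) hi ?_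
    have h4 := congrFun h3' i
    have h5 : g n (t i) ∈ U (n + 1) := by
      rw [hU]
      exact Finset.mem_union_right _ (Finset.mem_union_right _ (Finset.mem_image_of_mem _ (h1 i)))
    have h6 := hUm (n + 1) m hnm h5
    have h7 : g n (t i) = hh m (U m) (t' i) := h4
    rw [h7] at h6
    exact h6
  let c : (Fin K → ℕ) → ℕ := fun u =>
    if h : ∃ n, Cd n u then (r h.choose).2.2 (fun i => (g h.choose)⁻¹ (u i)) else 0
  have hc : ∀ n u, Cd n u → c u = (r n).2.2 (fun i => (g n)⁻¹ (u i)) := by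
    intro n u h
    have hex : ∃ n, Cd n u := ⟨n, h⟩
    have e : c u = (r hex.choose).2.2 (fun i => (g hex.choose)⁻¹ (u i)) := dif_pos hex
    have e2 : hex.choose = n := by
      rcases lt_trichotomy hex.choose n with h1 | h1 | h1
      · exact absurd h (huniq _ _ _ h1 hex.choose_spec)
      · exact h1
      · exact absurd hex.choose_spec (huniq _ _ _ h1 h)
    rw [e, e2]
  refine ⟨c, fun B hB hBc D hD hBD χ => ?_⟩
  -- the finitely many relevant tuples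
  have htf : ({t : Fin K → ℕ | ∀ i, t i ∈ D} : Set (Fin K → ℕ)).Finite := by
    have h1 := Set.Finite.pi' (t := fun _ : Fin K => D) fun _ => hD
    exact h1
  let χ' : (Fin K → ℕ) →₀ ℕ := Finsupp.onFinset htf.toFinset
    (fun t => if t ∈ htf.toFinset then χ t else 0) (fun t ht => by
      by_contra h1
      simp [h1] at ht)
  obtain ⟨n, hn⟩ := hr (hB.toFinset, hD.toFinset, χ')
  have hV : V n := by
    show cl G ((r n).1 : Set ℕ) ⊆ (r n).1 ∧ (r n).1 ⊆ (r n).2.1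
    rw [hn]
    refine ⟨?_, ?_⟩
    · simpa using hBc
    · intro x hx
      rw [Set.Finite.mem_toFinset] at hx ⊢
      exact hBD hx
  obtain ⟨k1, -⟩ := hhs n (U n) hV
  refine ⟨g n, ?_, fun t ht htD htB => ?_⟩
  · have e : ((r n).1 : Set ℕ) = B := by
      rw [hn]
      simp
    rw [← e]
    exact k1
  · have hCd : Cd n (fun i => g n (t i)) := by
      refine ⟨hV, t, fun i => ?_, fun hall => htB fun i => ?_, rfl⟩
      · rw [hn]
        exact hD.mem_toFinset.2 (htD i)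
      · have := hall i
        rw [hn] at this
        exact hB.mem_toFinset.1 this
    rw [hc n _ hCd, hn]
    have e : (fun i => (g n)⁻¹ (g n (t i))) = t := by
      funext i
      exact Equiv.symm_apply_apply (g n) (t i)
    rw [e]
    show (if t ∈ htf.toFinset then χ t else 0) = χ t
    rw [if_pos (htf.mem_toFinset.2 htD)]

end Pool.Agent.H2.OC
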