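import Pool.Agent.H2.OC.Col

set_option autoImplicit false

/-! The expansions of the models of a countably categorical theory: the reduction. -/

namespace Pool.Agent.H2.OC

open FirstOrder FirstOrder.Language
open Pool.Agent.W889.FO hiding D W
open Pool.Agent.W889.FO.St0 (RF LF W D)
open Pool.Agent.W889.FO.StE (LG gd)
open Pool.Agent.H2.TM (Gr W_Gr D_Gr)

variable {L : FirstOrder.Language.{0, 0}} {K J : ℕ} {T : L.Theory} {A : L.Structure ℕ}

/-! ### Existence -/

/-- the expansion given by a colouring and a binary relation of the colours -/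
@[reducible] def mk (A : L.Structure ℕ) (c : (Fin K → ℕ) → ℕ) (q : ℕ → ℕ → Prop) :
    (LX L K J).Structure ℕ where
  funMap := fun {n} F v => match F with
    | Sum.inl F => @Structure.funMap L ℕ A n F v
    | Sum.inr F => Empty.elim F
  RelMap := fun {n} R => match n, R with
    | _, Sum.inl R => fun v => @Structure.RelMap L ℕ A _ R v
    | _, Sum.inr One.R => fun v => ∃ (x y : Fin K → ℕ) (w : Fin (J + 2) → ℕ), v = ap x y w ∧
        Function.Injective x ∧ Function.Injective y ∧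
          ((w 0 = w 1 ∧ c x = c y) ∨ (w 0 ≠ w 1 ∧ q (c x) (c y)))

theorem ap_inj {x x' y y' : Fin K → ℕ} {w w' : Fin (J + 2) → ℕ} (h : ap x y w = ap x' y' w') :
    x = x' ∧ y = y' ∧ w = w' := by
  have h1 : ∀ j, Sum.elim x (Sum.elim y w) j = Sum.elim x' (Sum.elim y' w') j := by
    intro j
    have h2 := congrFun h ((ix K J).symm j)
    have h3 : Sum.elim x (Sum.elim y w) (ix K J ((ix K J).symm j)) =
      Sum.elim x' (Sum.elim y' w') (ix K J ((ix K J).symm j)) := h2
    rwa [Equiv.apply_symm_apply] at h3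
  exact ⟨funext fun i => h1 (Sum.inl i), funext fun i => h1 (Sum.inr (Sum.inl i)),
    funext fun i => h1 (Sum.inr (Sum.inr i))⟩

theorem rr_mk (c : (Fin K → ℕ) → ℕ) (q : ℕ → ℕ → Prop) (x y : Fin K → ℕ) (w : Fin (J + 2) → ℕ) :
    RR (mk (J := J) A c q) (ap x y w) ↔ Function.Injective x ∧ Function.Injective y ∧
      ((w 0 = w 1 ∧ c x = c y) ∨ (w 0 ≠ w 1 ∧ q (c x) (c y))) := by
  constructor
  · rintro ⟨x', y', w', h, h1⟩
    obtain ⟨rfl, rfl, rfl⟩ := ap_inj h
    exact h1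
  · exact fun h => ⟨x, y, w, rfl, h⟩

theorem ee_mk (c : (Fin K → ℕ) → ℕ) (q : ℕ → ℕ → Prop) (x y : Fin K → ℕ) :
    EE (mk (J := J) A c q) x y ↔ Function.Injective x ∧ Function.Injective y ∧ c x = c y := by
  constructor
  · rintro ⟨a, ha⟩
    obtain ⟨h1, h2, (⟨-, h3⟩ | ⟨h3, -⟩)⟩ := (rr_mk c q x y _).1 ha
    · exact ⟨h1, h2, h3⟩
    · exact absurd rfl h3
  · rintro ⟨h1, h2, h3⟩
    exact ⟨0, (rr_mk c q x y _).2 ⟨h1, h2, Or.inl ⟨rfl, h3⟩⟩⟩

theorem qq_mk (c : (Fin K → ℕ) → ℕ) (q : ℕ → ℕ → Prop) (x y : Fin K → ℕ) :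
    QQ (mk (J := J) A c q) x y ↔ Function.Injective x ∧ Function.Injective y ∧ q (c x) (c y) := by
  constructor
  · rintro ⟨w, hw, h⟩
    obtain ⟨h1, h2, (⟨h3, -⟩ | ⟨-, h3⟩)⟩ := (rr_mk c q x y w).1 h
    · exact absurd h3 hw
    · exact ⟨h1, h2, h3⟩
  · rintro ⟨h1, h2, h3⟩
    exact ⟨fun i => i, by simp, (rr_mk c q x y _).2 ⟨h1, h2, Or.inr ⟨by simp, h3⟩⟩⟩

theorem red_mk (c : (Fin K → ℕ) → ℕ) (q : ℕ → ℕ → Prop) : Red (mk (J := J) A c q) = A := rfl

/-- all colours occur -/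
theorem Gen.surj {X : Type} {G : Subgroup (Equiv.Perm ℕ)} (hG : LocFin G) {c : (Fin K → ℕ) → X}
    (h : Gen G c) (hK : 0 < K) (a : X) : ∃ t : Fin K → ℕ, Function.Injective t ∧ c t = a := by
  have hB := hG ∅ Set.finite_empty
  obtain ⟨t, ht⟩ : ∃ t : Fin K → ℕ, Function.Injective t ∧ ∀ i, t i ∉ cl G ∅ := by
    have h1 : (cl G ∅)ᶜ.Infinite := hB.infinite_compl
    have := h1.to_subtype
    let f : ℕ ↪ ((cl G ∅)ᶜ : Set ℕ) := Infinite.natEmbedding _
    refine ⟨fun i => (f i : ℕ), fun i j hij => ?_, fun i => (f i).2⟩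
    exact Fin.ext (f.injective (Subtype.ext hij))
  obtain ⟨k, -, hk⟩ := h (cl G ∅) hB (cl_cl hB) (cl G ∅ ∪ Set.range t)
    (hB.union (Set.finite_range t)) Set.subset_union_left (fun _ => a)
  refine ⟨_, ?_, hk t ht.1 (fun i => Or.inr ⟨i, rfl⟩) fun hall => ht.2 ⟨0, hK⟩ (hall ⟨0, hK⟩)⟩
  exact fun i j hij => ht.1 (k.injective hij)

variable [Countable L.Symbols]

theorem wm_mk (hc : Cat T) (hA : @Theory.Model L ℕ A T) (hK : 0 < K) {c : (Fin K → ℕ) → ℕ}
    (hg : Gen (AG A) c) (q : ℕ → ℕ → Prop) : WM T A (mk (J := J) A c q) where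
  red := hA
  inj := fun x y w h => ⟨((rr_mk c q x y w).1 h).1, ((rr_mk c q x y w).1 h).2.1⟩
  dep := by
    intro x y w w' hw h
    rw [rr_mk] at h ⊢
    refine ⟨h.1, h.2.1, ?_⟩
    rcases h.2.2 with ⟨h1, h2⟩ | ⟨h1, h2⟩
    · exact Or.inl ⟨hw.1 h1, h2⟩
    · exact Or.inr ⟨fun e => h1 (hw.2 e), h2⟩
  refl := fun x hx => (ee_mk c q x x).2 ⟨hx, hx, rfl⟩
  symm := by
    intro x y h
    rw [ee_mk] at h ⊢
    exact ⟨h.2.1, h.1, h.2.2.symm⟩
  trans := by
    intro x y z h h'
    rw [ee_mk] at h h' ⊢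
    exact ⟨h.1, h'.2.1, h.2.2.trans h'.2.2⟩
  cong := by
    intro x x' y y' h h' h1
    rw [ee_mk] at h h'
    rw [qq_mk] at h1 ⊢
    refine ⟨h.2.1, h'.2.1, ?_⟩
    rw [← h.2.2, ← h'.2.2]
    exact h1.2.2
  inf := by
    intro N
    choose X hX hX' using fun i : Fin N => hg.surj (lf_AG hc hA) hK (i : ℕ)
    refine ⟨X, hX, fun i j hij h => hij ?_⟩
    rw [ee_mk, hX', hX'] at h
    exact Fin.ext h.2.2
  gen := by
    classical
    rintro n m b d hb hd x ⟨f, hf⟩ z hz
    let σ : Equiv.Perm ℕ := pe f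
    have hσ : σ ∈ AG A := ⟨f, fun _ => rfl⟩
    have hbx : Set.range b = σ '' Set.range x := by
      rw [← Set.range_comp]
      congr 1
      funext i
      exact (hf i).symm
    have hrx : cl (AG A) (Set.range x) ⊆ Set.range x := by
      rw [hbx, cl_image hσ] at hb
      intro a ha
      obtain ⟨a', ha', e⟩ := hb ⟨a, ha, rfl⟩
      rw [← σ.injective e]
      exact ha'
    let χ : (Fin K → ℕ) → ℕ := fun t' =>
      if h : ∃ t : Fin K → Fin m, t' = fun i => σ⁻¹ (d (t i)) then c (z h.choose) else 0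
    have hχ : ∀ t : Fin K → Fin m, χ (fun i => σ⁻¹ (d (t i))) = c (z t) := by
      intro t
      have hex : ∃ t' : Fin K → Fin m, (fun i => σ⁻¹ (d (t i))) = fun i => σ⁻¹ (d (t' i)) :=
        ⟨t, rfl⟩
      have e : χ (fun i => σ⁻¹ (d (t i))) = c (z hex.choose) := dif_pos hex
      have e2 : hex.choose = t := by
        funext i
        have h1 := congrFun hex.choose_spec i
        exact (hd (σ⁻¹.injective h1)).symm
      rw [e, e2]
    obtain ⟨k, hk, hk'⟩ := hg (Set.range x) (Set.finite_range x) hrx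
      (Set.range x ∪ Set.range fun j => σ⁻¹ (d j))
      ((Set.finite_range x).union (Set.finite_range _)) Set.subset_union_left χ
    refine ⟨fun j => k (σ⁻¹ (d j)), ?_, fun t ht htB => ?_⟩
    · have h1 : σ * k⁻¹ ∈ AG A := (AG A).mul_mem hσ ((AG A).inv_mem hk.1)
      obtain ⟨e, he⟩ := h1
      refine ⟨e, ?_⟩
      rintro (i | j)
      · show e (x i) = b i
        rw [he, ← hf i]
        show σ (k⁻¹ (x i)) = σ (x i)
        have h2 : k⁻¹ (x i) = x i := by
          rw [Equiv.Perm.inv_eq_iff_eq, hk.2 _ ⟨i, rfl⟩]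
        rw [h2]
      · show e (k (σ⁻¹ (d j))) = d j
        rw [he]
        show σ (k⁻¹ (k (σ⁻¹ (d j)))) = d j
        have h2 : k⁻¹ (k (σ⁻¹ (d j))) = σ⁻¹ (d j) := Equiv.symm_apply_apply k _
        rw [h2]
        exact Equiv.apply_symm_apply σ _
    · have hi : Function.Injective (fun i => σ⁻¹ (d (t i))) := fun i j hij =>
        ht (hd (σ⁻¹.injective hij))
      refine (ee_mk c q _ _).2 ⟨fun i j hij => hi (k.injective hij), hz t, ?_⟩
      rw [hk' (fun i => σ⁻¹ (d (t i))) hi (fun i => Or.inr ⟨t i, rfl⟩) fun hall => htB fun i => ?_]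
      · exact hχ t
      · rw [hbx]
        exact ⟨_, hall i, Equiv.apply_symm_apply σ _⟩

variable (hc : Cat T) (hA : @Theory.Model L ℕ A T)

theorem exists_S (hK : 0 < K) (N : LG.Structure ℕ) :
    ∃ S, (IX K J hc hA).W S ∧ SIso ((IX K J hc hA).D S) N := by
  obtain ⟨c, hg⟩ := exists_gen (AG A) K
  let M := mk (J := J) A c (gd N)
  have hW : (IX K J hc hA).W (Gr M) := by
    refine ⟨W_Gr M, ?_⟩
    rw [D_Gr]
    exact wm_mk hc hA hK hg (gd N)
  refine ⟨Gr M, hW, ?_⟩
  have hE : ∀ x y, EE (D (Gr M)) x y ↔ Function.Injective x ∧ Function.Injective y ∧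
      c x = c y := by
    intro x y
    rw [D_Gr]
    exact ee_mk c (gd N) x y
  have hQ : ∀ x y, QQ (D (Gr M)) x y ↔ Function.Injective x ∧ Function.Injective y ∧
      gd N (c x) (c y) := by
    intro x y
    rw [D_Gr]
    exact qq_mk c (gd N) x y
  obtain ⟨τ, hτ⟩ := Pool.Agent.W889.SD.equiv_of_rel
    (fun n m => ∃ u, (IX K J hc hA).lab (Gr M) n u ∧ c u = m)
    (fun n => by
      obtain ⟨u, hu⟩ := Itk.lab_surj hW n
      exact ⟨_, u, hu, rfl⟩)
    (fun m => by
      obtain ⟨u, hu, hu'⟩ := hg.surj (lf_AG hc hA) hK m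
      obtain ⟨n, hn⟩ := Itk.ex_lab (I := IX K J hc hA) hW (t := u) hu
      exact ⟨n, u, hn, hu'⟩)
    (by
      rintro n m m' ⟨u, k1, rfl⟩ ⟨u', k3, rfl⟩
      exact ((hE u u').1 ((Itk.lab_eq hW k1 k3).2 rfl)).2.2)
    (by
      rintro n n' m ⟨u, k1, k2⟩ ⟨u', k3, k4⟩
      exact (Itk.lab_eq hW k1 k3).1 ((hE u u').2 ⟨k1.1, k3.1, k2.trans k4.symm⟩))
  obtain ⟨e, -⟩ := siso_of (S := (IX K J hc hA).D (Gr M)) (S' := N) τ (fun n R v => by
    cases R with
    | adj =>
      choose u hu hu' using fun i => hτ (v i)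
      rw [Itk.rel_iff hW FirstOrder.Language.graphRel.adj hu]
      show _ ↔ QQ (D (Gr M)) (u 0) (u 1)
      rw [hQ, hu', hu']
      have e : (fun i => τ (v i)) = ![τ (v 0), τ (v 1)] := by
        funext i
        fin_cases i <;> rfl
      rw [e]
      exact ⟨fun h => ⟨(hu 0).1, (hu 1).1, h⟩, fun h => h.2.2⟩)
  exact ⟨e⟩

/-! ### Uniqueness and homogeneity -/

variable {hc hA} {S S' : (LF (LX L K J)).Structure ℕ}

theorem lf_S (h : (IX K J hc hA).W S) : LocFin (AG (Red (D S))) := lf_AG hc h.2.red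

/-- from colour preserving isomorphisms of the reducts to isomorphisms -/
theorem up_of_col (h : (IX K J hc hA).W S) (h' : (IX K J hc hA).W S')
    (e : @FirstOrder.Language.Equiv L ℕ ℕ (Red (D S)) (Red (D S')))
    (τ : @FirstOrder.Language.Equiv LG ℕ ℕ ((IX K J hc hA).D S) ((IX K J hc hA).D S'))
    (hτ : ∀ t, Function.Injective t → col (IX K J hc hA) S' (fun i => e (t i)) =
      τ (col (IX K J hc hA) S t)) :
    ∃ f : @FirstOrder.Language.Equiv (LX L K J) ℕ ℕ (D S) (D S'), ∀ x, f x = e x := by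
  have hinj : ∀ x : Fin K → ℕ, Function.Injective x → Function.Injective fun i => e (x i) :=
    fun x hx i j hij => hx ((pe e).injective hij)
  have hτi : Function.Injective τ :=
    @FirstOrder.Language.Equiv.injective LG ℕ ℕ ((IX K J hc hA).D S) ((IX K J hc hA).D S') τ
  refine iso_of_lab h.2 h'.2 e (fun x y hx hy => ?_) (fun x y hx hy => ?_)
  · rw [col_iff h hx hy, col_iff h' (hinj x hx) (hinj y hy), hτ x hx, hτ y hy]
    exact hτi.eq_iff.symm
  · rw [qq_iff h hx hy, qq_iff h' (hinj x hx) (hinj y hy), hτ x hx, hτ y hy]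
    have h1 := iso_rel τ (FirstOrder.Language.adj : LG.Relations 2)
      ![col (IX K J hc hA) S x, col (IX K J hc hA) S y]
    have e1 : (fun i => τ (![col (IX K J hc hA) S x, col (IX K J hc hA) S y] i)) =
        ![τ (col (IX K J hc hA) S x), τ (col (IX K J hc hA) S y)] := by
      funext i
      fin_cases i <;> rfl
    rw [e1] at h1
    exact h1.symm

/-- a set with less than `K` elements contains no injective tuple -/
theorem no_tuple {B : Set ℕ} (hB : B.Finite) (h : B.ncard < K) (t : Fin K → ℕ)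
    (ht : Function.Injective t) : ¬ ∀ i, t i ∈ B := by
  intro h1
  have h2 : (Set.range t).ncard ≤ B.ncard := Set.ncard_le_ncard (by
    rintro _ ⟨i, rfl⟩
    exact h1 i) hB
  rw [← Set.image_univ, Set.ncard_image_of_injective _ ht, Set.ncard_univ, Nat.card_eq_fintype_card,
    Fintype.card_fin] at h2
  omega

theorem hup (hK : (cl (AG A) ∅).ncard < K) (h : (IX K J hc hA).W S) (h' : (IX K J hc hA).W S')
    (hi : SIso ((IX K J hc hA).D S) ((IX K J hc hA).D S')) : SIso S S' := by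
  obtain ⟨τ⟩ := hi
  obtain ⟨e⟩ := hc.2 (Red (D S)) (Red (D S')) h.2.red h'.2.red
  obtain ⟨e0⟩ := hc.2 (Red (D S)) A h.2.red hA
  let τ' : ℕ ≃ ℕ := @FirstOrder.Language.Equiv.toEquiv LG ℕ ℕ ((IX K J hc hA).D S)
    ((IX K J hc hA).D S') τ
  have hg1 := (gen_col h).map τ'
  have hg2 := Gen.iso e (gen_col h')
  have hLF := lf_S h
  have hB := hLF ∅ Set.finite_empty
  have hPI : PI (AG (Red (D S))) (fun t => τ' (col (IX K J hc hA) S t))
      (fun t => col (IX K J hc hA) S' (fun i => e (t i))) (cl (AG (Red (D S))) ∅) 1 := by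
    refine ⟨hB, cl_cl hB, Subgroup.one_mem _, fun t ht htB => absurd htB (no_tuple hB ?_ t ht)⟩
    have h1 := cl_iso e0 ∅
    rw [Set.image_empty] at h1
    rw [h1, Set.ncard_image_of_injective _ (pe e0).injective] at hK
    exact hK
  obtain ⟨σ, ⟨f, hf⟩, -, h2⟩ := hPI.extend hLF (closed_AG _) hg1 hg2
  obtain ⟨g, -⟩ := up_of_col h h' (@FirstOrder.Language.Equiv.comp L ℕ ℕ (Red (D S)) (Red (D S)) ℕ
    (Red (D S')) e f) τ (fun t ht => by
      have h3 := h2 t ht
      have e1 : (fun i => e (f (t i))) = fun i => e (σ (t i)) := by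
        funext i
        rw [hf]
      show col (IX K J hc hA) S' (fun i => e (f (t i))) = _
      rw [e1]
      exact h3)
  exact St0.iso_up h.1 h'.1 ⟨g⟩

/-- partial maps which preserve colours extend to automorphisms -/
theorem aut_of (h : (IX K J hc hA).W S) {B : Set ℕ} {g : Equiv.Perm ℕ}
    (hPI : PI (AG (Red (D S))) (col (IX K J hc hA) S) (col (IX K J hc hA) S) B g) :
    ∃ f : @FirstOrder.Language.Equiv (LX L K J) ℕ ℕ (D S) (D S), ∀ x ∈ B, f x = g x := by
  obtain ⟨σ, ⟨f, hf⟩, h1, h2⟩ := hPI.extend (lf_S h) (closed_AG _) (gen_col h) (gen_col h)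
  obtain ⟨k, hk⟩ := up_of_col h h f
    (@FirstOrder.Language.Equiv.refl LG ℕ ((IX K J hc hA).D S)) (fun t ht => by
      have e1 : (fun i => f (t i)) = fun i => σ (t i) := by
        funext i
        rw [hf]
      rw [e1]
      exact h2 t ht)
  exact ⟨k, fun x hx => by rw [hk, hf, h1 x hx]⟩

/-- the automorphism groups of the expansion and of the reduct have the same orbits on
`k`-tuples -/
def SameOrbits {m : ℕ} (k : ℕ) (M : (L.sum (rl m)).Structure ℕ) : Prop :=
  ∀ v w : Fin k → ℕ, (∃ e : @FirstOrder.Language.Equiv L ℕ ℕ (Red M) (Red M), ∀ i, e (v i) = w i) →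
    ∃ e : @FirstOrder.Language.Equiv (L.sum (rl m)) ℕ ℕ M M, ∀ i, e (v i) = w i

/-- the algebraic closure is the same in the expansion and in the reduct -/
def SameClosure {m : ℕ} (M : (L.sum (rl m)).Structure ℕ) : Prop :=
  ∀ (F : Set ℕ) (a : ℕ), F.Finite →
    {x | ∃ e : @FirstOrder.Language.Equiv (L.sum (rl m)) ℕ ℕ M M,
      (∀ b ∈ F, e b = b) ∧ e a = x}.Finite →
    {x | ∃ e : @FirstOrder.Language.Equiv L ℕ ℕ (Red M) (Red M),
      (∀ b ∈ F, e b = b) ∧ e a = x}.Finite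

theorem sameOrbits {k : ℕ} (hK : ∀ v : Fin k → ℕ, (cl (AG A) (Set.range v)).ncard < K)
    (h : (IX K J hc hA).W S) : SameOrbits k (D S) := by
  rintro v w ⟨e, he⟩
  obtain ⟨e0⟩ := hc.2 (Red (D S)) A h.2.red hA
  have hB := lf_S h (Set.range v) (Set.finite_range v)
  have hPI : PI (AG (Red (D S))) (col (IX K J hc hA) S) (col (IX K J hc hA) S)
      (cl (AG (Red (D S))) (Set.range v)) (pe e) := by
    refine ⟨hB, cl_cl hB, ⟨e, fun _ => rfl⟩, fun t ht htB => absurd htB (no_tuple hB ?_ t ht)⟩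
    have h1 := cl_iso e0 (Set.range v)
    have h2 := hK (fun i => e0 (v i))
    have e1 : Set.range (fun i => e0 (v i)) = pe e0 '' Set.range v := by
      rw [← Set.range_comp]
      rfl
    rw [e1, h1, Set.ncard_image_of_injective _ (pe e0).injective] at h2
    exact h2
  obtain ⟨f, hf⟩ := aut_of h hPI
  exact ⟨f, fun i => (hf _ (subset_cl _ ⟨i, rfl⟩)).trans (he i)⟩

theorem sameClosure (h : (IX K J hc hA).W S) : SameClosure (D S) := by
  intro F a hF hfin
  by_contra hinf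
  have ha : a ∉ cl (AG (Red (D S))) F := by
    intro ha
    refine hinf (Set.Finite.subset ha ?_)
    rintro x ⟨e, h1, h2⟩
    exact ⟨pe e, ⟨⟨e, fun _ => rfl⟩, h1⟩, h2⟩
  refine (gen_col h).noalg (lf_S h) (closed_AG _) hF ha (hfin.subset ?_)
  rintro x ⟨σ, ⟨⟨f, hf⟩, h1⟩, h2, h3⟩
  obtain ⟨k, hk⟩ := up_of_col h h f
    (@FirstOrder.Language.Equiv.refl LG ℕ ((IX K J hc hA).D S)) (fun t ht => by
      have e1 : (fun i => f (t i)) = fun i => σ (t i) := by
        funext i
        rw [hf]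
      rw [e1]
      exact h2 t ht)
  exact ⟨k, fun b hb => by rw [hk, hf, h1 b hb], by rw [hk, hf, h3]⟩

omit [Countable L.Symbols] in
theorem countable_rl (m : ℕ) : Countable (rl m).Symbols := by
  have h2 : Countable (Σ n, (rl m).Relations n) := by
    refine Function.Surjective.countable (α := Unit) (f := fun _ => ⟨_, One.R⟩) ?_
    rintro ⟨n, Q⟩
    cases Q with
    | R => exact ⟨(), rfl⟩
  have h3 : IsEmpty (Σ n, (rl m).Functions n) := ⟨fun p => Empty.elim p.2⟩
  exact inferInstanceAs (Countable ((Σ n, (rl m).Functions n) ⊕ Σ n, (rl m).Relations n))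

theorem countable_sum (L' : FirstOrder.Language.{0, 0}) [Countable L'.Symbols] :
    Countable (L.sum L').Symbols := by
  have f1 : ∀ (L : FirstOrder.Language.{0, 0}) [Countable L.Symbols] (n : ℕ),
      Countable (L.Functions n) := fun L _ n =>
    ((Sum.inl_injective (α := Σ n, L.Functions n) (β := Σ n, L.Relations n)).comp
      (sigma_mk_injective (β := L.Functions) (i := n))).countable
  have f2 : ∀ (L : FirstOrder.Language.{0, 0}) [Countable L.Symbols] (n : ℕ),
      Countable (L.Relations n) := fun L _ n =>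
    ((Sum.inr_injective (α := Σ n, L.Functions n) (β := Σ n, L.Relations n)).comp
      (sigma_mk_injective (β := L.Relations) (i := n))).countable
  have h1 : ∀ n, Countable ((L.sum L').Functions n) := fun n => by
    have := f1 L n
    have := f1 L' n
    exact inferInstanceAs (Countable (L.Functions n ⊕ L'.Functions n))
  have h2 : ∀ n, Countable ((L.sum L').Relations n) := fun n => by
    have := f2 L n
    have := f2 L' n
    exact inferInstanceAs (Countable (L.Relations n ⊕ L'.Relations n))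
  exact inferInstanceAs (Countable ((Σ n, (L.sum L').Functions n) ⊕
    Σ n, (L.sum L').Relations n))

theorem countable_LX (K J : ℕ) : Countable (LX L K J).Symbols := by
  have := countable_rl (K + (K + (J + 2)))
  exact countable_sum _

/-- **The reduction.** -/
theorem reduction (hc : Cat T) (k : ℕ) : ∃ n0, ∀ n, n0 ≤ n →
    (∀ T' : (L.sum (rl n)).Theory, T'.IsComplete →
      (∀ M : (L.sum (rl n)).Structure ℕ, @Theory.Model (L.sum (rl n)) ℕ M T' →
        @Theory.Model L ℕ (Red M) T ∧ SameOrbits k M ∧ SameClosure M) →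
      VaughtF (L.sum (rl n)) T') →
    ∀ L' : FirstOrder.Language.{0, 0}, Countable L'.Symbols → ∀ T' : L'.Theory, VaughtF L' T' := by
  obtain ⟨A, hA⟩ := hc.1
  obtain ⟨K, hK⟩ := bound_cl hc hA k
  refine ⟨K + (K + 2), fun n hn h L' hL' T' => ?_⟩
  obtain ⟨J, rfl⟩ : ∃ J, n = K + (K + (J + 2)) := ⟨n - (K + (K + 2)), by omega⟩
  have hK0 : 0 < K := lt_of_le_of_lt (Nat.zero_le _) (hK fun _ => 0)
  have hK1 : (cl (AG A) ∅).ncard < K := by
    refine lt_of_le_of_lt (Set.ncard_le_ncard (cl_mono (Set.empty_subset _)) ?_) (hK fun _ => 0)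
    exact lf_AG hc hA _ (Set.finite_range _)
  have : Countable (Σ n, LG.Relations n) := StD.countable_LG
  refine Pool.Agent.TH686.FO.all_of_LG (fun T1 => ?_) L' hL' T'
  refine (IX K J hc hA).transfer (fun S S' h1 h2 h3 => hup hK1 h1 h2 h3) T1
    (fun M _ => exists_S hc hA hK0 M) (fun T2 hT2 => ?_)
  refine Pool.Agent.H2.TM.compF (countable_LX K J) h T2 fun S hS => ?_
  have hW := (hT2 S hS).1
  exact ⟨hW.1, hW.2.red, sameOrbits hK hW, sameClosure hW⟩

end Pool.Agent.H2.OC
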