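import Mathlib

set_option autoImplicit false

/-! Languages with one relation symbol. -/

namespace Pool.Agent.H2.OC

/-- one relation symbol of arity `m` -/
inductive One (m : ℕ) : ℕ → Type
  | R : One m m

/-- the language with one relation symbol of arity `m` and no other symbols -/
def rl (m : ℕ) : FirstOrder.Language.{0, 0} := ⟨fun _ => Empty, One m⟩

end Pool.Agent.H2.OC
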